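import Mathlib

set_option autoImplicit false

/-!
# The Fibonacci block
-/

namespace Pool.Agent.H228R3

open Finset Matrix

/-- The kernel vector: `1, -F₁, F₂, -F₃, ...`. -/
def w (j : ℕ) : ℤ := if j = 0 then 1 else (-1) ^ j * (Nat.fib j : ℤ)

theorem w_zero : w 0 = 1 := rfl

theorem w_succ (j : ℕ) : w (j + 1) = (-1) ^ (j + 1) * (Nat.fib (j + 1) : ℤ) := by
  simp [w]

/-- The sum of the `w j` with `j < i` and `i - j` odd. -/
def So (i : ℕ) : ℤ := ∑ j ∈ range i, if (i - j) % 2 = 1 then w j else 0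

theorem So_add_two (i : ℕ) : So (i + 2) = So i + w (i + 1) := by
  unfold So
  rw [Finset.sum_range_succ, Finset.sum_range_succ]
  have h1 : (i + 2 - (i + 1)) % 2 = 1 := by
    have : i + 2 - (i + 1) = 1 := by omega
    rw [this]
  have h2 : ¬ (i + 2 - i) % 2 = 1 := by
    have : i + 2 - i = 2 := by omega
    rw [this]
    norm_num
  rw [if_pos h1, if_neg h2, add_zero]
  congr 1
  refine Finset.sum_congr rfl fun j hj => ?_
  rw [Finset.mem_range] at hj
  have : (i + 2 - j) % 2 = (i - j) % 2 := by omega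
  rw [this]

theorem So_eq : ∀ i : ℕ, So (i + 1) = - w (i + 1)
  | 0 => by decide
  | 1 => by decide
  | i + 2 => by
    rw [So_add_two, So_eq i, w_succ, w_succ, w_succ]
    rw [Nat.fib_add_two (n := i + 1)]
    push_cast
    ring

/-- The square Fibonacci block with first row `ρ`. -/
def Nm (m : ℕ) (ρ : Fin (m + 1) → ℤ) : Matrix (Fin (m + 1)) (Fin (m + 1)) ℤ := fun i j =>
  if i = 0 then ρ j
  else if j = i then 1
  else if j.val < i.val ∧ (i.val - j.val) % 2 = 1 then 1 else 0

theorem Nm01 {m : ℕ} {ρ : Fin (m + 1) → ℤ} (hρ : ∀ j, ρ j = 0 ∨ ρ j = 1) (i j : Fin (m + 1)) :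
    Nm m ρ i j = 0 ∨ Nm m ρ i j = 1 := by
  unfold Nm
  split_ifs
  · exact hρ _
  · exact Or.inr rfl
  · exact Or.inr rfl
  · exact Or.inl rfl

theorem Nm_row {m : ℕ} (ρ : Fin (m + 1) → ℤ) (i : Fin (m + 1)) (hi : i ≠ 0) :
    ∑ j, w j.val * Nm m ρ i j = 0 := by
  have hi0 : i.val ≠ 0 := fun h => hi (Fin.ext h)
  have h1 : ∀ j : Fin (m + 1), w j.val * Nm m ρ i j =
      (fun k : ℕ => (if k = i.val then w k else 0) +
        (if k < i.val then (if (i.val - k) % 2 = 1 then w k else 0) else 0)) j.val := by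
    intro j
    simp only [Nm, if_neg hi]
    by_cases h : j = i
    · subst h
      simp
    · have h' : j.val ≠ i.val := fun h2 => h (Fin.ext h2)
      rw [if_neg h, if_neg h', zero_add]
      by_cases h3 : j.val < i.val
      · by_cases h4 : (i.val - j.val) % 2 = 1
        · simp [h3, h4]
        · simp [h3, h4]
      · simp [h3]
  rw [Finset.sum_congr rfl fun j _ => h1 j,
    Fin.sum_univ_eq_sum_range (fun k : ℕ => (if k = i.val then w k else 0) +
        (if k < i.val then (if (i.val - k) % 2 = 1 then w k else 0) else 0)) (m + 1),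
    Finset.sum_add_distrib, Finset.sum_ite_eq']
  rw [if_pos (Finset.mem_range.2 i.isLt)]
  have h2 : ∑ k ∈ range (m + 1), (if k < i.val then (if (i.val - k) % 2 = 1 then w k else 0) else 0)
      = So i.val := by
    unfold So
    rw [← Finset.sum_filter]
    refine Finset.sum_congr ?_ fun _ _ => rfl
    ext k
    rw [Finset.mem_filter, Finset.mem_range, Finset.mem_range]
    have := i.isLt
    omega
  rw [h2]
  obtain ⟨k, hk⟩ := Nat.exists_eq_succ_of_ne_zero hi0
  rw [hk, Nat.succ_eq_add_one, So_eq]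
  ring

theorem Nm_det {m : ℕ} (ρ : Fin (m + 1) → ℤ) :
    (Nm m ρ).det = ∑ j, ρ j * w j.val := by
  have h1 := Matrix.det_updateCol_sum (Nm m ρ) 0 (fun j => w j.val)
  simp only [Fin.val_zero, w_zero, smul_eq_mul] at h1
  rw [one_mul] at h1
  rw [← h1, Matrix.det_succ_column_zero, Fin.sum_univ_succ]
  have h2 : ∀ i : Fin m, ((Nm m ρ).updateCol 0 fun k => ∑ i, w i.val * Nm m ρ k i) i.succ 0 = 0 := by
    intro i
    rw [Matrix.updateCol_self]
    exact Nm_row ρ i.succ (Fin.succ_ne_zero i)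
  rw [Finset.sum_eq_zero (fun i _ => by rw [h2 i]; ring), add_zero]
  rw [Matrix.updateCol_self]
  have h3 : (((Nm m ρ).updateCol 0 fun k => ∑ i, w i.val * Nm m ρ k i).submatrix
      (Fin.succAbove 0) Fin.succ).det = 1 := by
    rw [Matrix.det_of_lowerTriangular]
    · refine Finset.prod_eq_one fun i _ => ?_
      rw [Matrix.submatrix_apply, Fin.succAbove_zero, Matrix.updateCol_ne (Fin.succ_ne_zero i)]
      simp [Nm]
    · intro i j hij
      have hij' : i < j := hij
      rw [Matrix.submatrix_apply, Fin.succAbove_zero, Matrix.updateCol_ne (Fin.succ_ne_zero j)]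
      have h4 : j.succ ≠ i.succ := fun h => by
        rw [Fin.succ_inj] at h
        exact absurd h (ne_of_gt hij')
      have h5 : ¬ (j.succ.val < i.succ.val) := by
        have : i.val < j.val := hij'
        rw [Fin.val_succ, Fin.val_succ]
        omega
      simp only [Nm, if_neg (Fin.succ_ne_zero i), if_neg h4]
      rw [if_neg]
      exact fun h => h5 h.1
  rw [h3]
  simp only [Fin.val_zero, pow_zero, one_mul, mul_one]
  refine Finset.sum_congr rfl fun j _ => ?_
  simp only [Nm, if_true]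
  ring

/-- The total of the absolute values of the negative `w j` with `j < m`. -/
def NN (m : ℕ) : ℤ := ∑ j ∈ range m, if j % 2 = 1 then (Nat.fib j : ℤ) else 0

theorem cover : ∀ m : ℕ, 1 ≤ m → ∀ y : ℕ, y ≤ Nat.fib (m + 1) →
    ∃ c : ℕ → ℤ, (∀ j, c j = 0 ∨ c j = 1) ∧ ∑ j ∈ range m, c j * w j = y - NN m := by
  intro m hm
  induction m, hm using Nat.le_induction with
  | base =>
    intro y hy
    have hy' : y ≤ 1 := hy
    refine ⟨fun _ => y, fun _ => by simp only; omega, ?_⟩
    simp [NN, w_zero]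
  | succ m hm ih =>
    intro y hy
    rw [Nat.fib_add_two (n := m)] at hy
    obtain ⟨k, rfl⟩ : ∃ k, m = k + 1 := ⟨m - 1, by omega⟩
    have hmono : Nat.fib (k + 1) ≤ Nat.fib (k + 1 + 1) := Nat.fib_le_fib_succ
    -- setting the last coefficient
    have hset : ∀ (c : ℕ → ℤ) (e : ℤ), (∀ j, c j = 0 ∨ c j = 1) → (e = 0 ∨ e = 1) →
        ∃ c' : ℕ → ℤ, (∀ j, c' j = 0 ∨ c' j = 1) ∧
          ∑ j ∈ range (k + 1 + 1), c' j * w j = ∑ j ∈ range (k + 1), c j * w j + e * w (k + 1) := by
      intro c e hc he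
      refine ⟨fun j => if j = k + 1 then e else c j, fun j => ?_, ?_⟩
      · by_cases h : j = k + 1
        · simp only [h, if_true]
          exact he
        · simp only [h, if_false]
          exact hc j
      · rw [Finset.sum_range_succ]
        congr 1
        · refine Finset.sum_congr rfl fun j hj => ?_
          rw [Finset.mem_range] at hj
          have hjk : j ≠ k + 1 := by omega
          simp only [if_neg hjk]
        · simp
    have hNN : NN (k + 1 + 1) = NN (k + 1) + if (k + 1) % 2 = 1 then (Nat.fib (k + 1) : ℤ) else 0 := by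
      unfold NN
      rw [Finset.sum_range_succ]
    rw [hNN]
    rcases Nat.even_or_odd (k + 1) with hev | hodd
    · have hmod : ¬ (k + 1) % 2 = 1 := by
        rw [Nat.even_iff] at hev
        omega
      have hw : w (k + 1) = (Nat.fib (k + 1) : ℤ) := by
        rw [w_succ, hev.neg_one_pow, one_mul]
      rw [if_neg hmod, add_zero]
      by_cases hy2 : y ≤ Nat.fib (k + 1 + 1)
      · obtain ⟨c, hc, hs⟩ := ih y hy2
        obtain ⟨c', hc', hs'⟩ := hset c 0 hc (Or.inl rfl)
        exact ⟨c', hc', by rw [hs', hs]; ring⟩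
      · obtain ⟨c, hc, hs⟩ := ih (y - Nat.fib (k + 1)) (by omega)
        obtain ⟨c', hc', hs'⟩ := hset c 1 hc (Or.inr rfl)
        refine ⟨c', hc', ?_⟩
        rw [hs', hs, hw, Nat.cast_sub (by omega)]
        ring
    · have hmod : (k + 1) % 2 = 1 := by
        rwa [Nat.odd_iff] at hodd
      have hw : w (k + 1) = - (Nat.fib (k + 1) : ℤ) := by
        rw [w_succ, hodd.neg_one_pow]
        ring
      rw [if_pos hmod]
      by_cases hy2 : y ≤ Nat.fib (k + 1 + 1)
      · obtain ⟨c, hc, hs⟩ := ih y hy2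
        obtain ⟨c', hc', hs'⟩ := hset c 1 hc (Or.inr rfl)
        exact ⟨c', hc', by rw [hs', hs, hw]; ring⟩
      · obtain ⟨c, hc, hs⟩ := ih (y - Nat.fib (k + 1)) (by omega)
        obtain ⟨c', hc', hs'⟩ := hset c 0 hc (Or.inl rfl)
        refine ⟨c', hc', ?_⟩
        rw [hs', hs, Nat.cast_sub (by omega)]
        ring

/-- Growth of the Fibonacci numbers in steps of 23. -/
theorem fib_step (n : ℕ) : Nat.fib (n + 23) = Nat.fib n * 17711 + Nat.fib (n + 1) * 28657 := by
  have h := Nat.fib_add n 22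
  have h22 : Nat.fib 22 = 17711 := by norm_num
  have h23 : Nat.fib (22 + 1) = 28657 := by norm_num
  rw [h22, h23] at h
  exact h

theorem fib_ratio_le (n : ℕ) : Nat.fib (n + 2) ≤ 2 * Nat.fib (n + 1) := by
  rw [Nat.fib_add_two]
  have := Nat.fib_le_fib_succ (n := n)
  omega

theorem fib_ratio_ge (n : ℕ) : 3 * Nat.fib (n + 2) ≤ 2 * Nat.fib (n + 3) := by
  have h1 := Nat.fib_add_two (n := n)
  have h2 := Nat.fib_add_two (n := n + 1)
  have h3 := Nat.fib_le_fib_succ (n := n)
  have h4 : n + 1 + 2 = n + 3 := rfl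
  have h5 : n + 1 + 1 = n + 2 := rfl
  rw [h4, h5] at h2
  omega

theorem fib_lower : ∀ L : ℕ, 60000 ^ L ≤ Nat.fib (23 * L + 2)
  | 0 => by norm_num
  | L + 1 => by
    have h := fib_lower L
    have h1 := fib_step (23 * L + 2)
    have h2 := fib_ratio_ge (23 * L)
    have h3 : 23 * (L + 1) + 2 = 23 * L + 2 + 23 := by ring
    rw [h3, h1, pow_succ]
    have h4 : 23 * L + 2 + 1 = 23 * L + 3 := rfl
    rw [h4]
    omega

theorem fib_upper : ∀ L : ℕ, Nat.fib (23 * L + 2) ≤ 75025 ^ L
  | 0 => by norm_num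
  | L + 1 => by
    have h := fib_upper L
    have h1 := fib_step (23 * L + 2)
    have h2 := fib_ratio_le (23 * L + 1)
    have h3 : 23 * (L + 1) + 2 = 23 * L + 2 + 23 := by ring
    rw [h3, h1, pow_succ]
    have h4 : 23 * L + 1 + 2 = 23 * L + 2 + 1 := rfl
    have h5 : 23 * L + 1 + 1 = 23 * L + 2 := rfl
    rw [h4, h5] at h2
    omega

end Pool.Agent.H228R3
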