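import Mathlib

set_option autoImplicit false

/-!
# The gadget and the two bidiagonal blocks

`Gd` is a `15 × 16` matrix with entries zero and one; `(1, bd)` spans its kernel, and the last
entry of `bd` is `76644`.
-/

namespace Pool.Agent.H228R3

open Finset Matrix

/-- The gadget: a `15 × 16` matrix with entries zero and one. -/
def Gd : Fin 15 → Fin 16 → ℤ :=
  ![![1, 1, 0, 0, 0, 0, 0, 1, 1, 0, 0, 1, 1, 1, 1, 1],
    ![1, 0, 0, 1, 1, 1, 1, 0, 1, 0, 0, 1, 0, 0, 1, 0],
    ![1, 0, 0, 0, 1, 1, 0, 1, 1, 1, 1, 0, 1, 0, 0, 0],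
    ![0, 1, 1, 1, 1, 0, 0, 0, 1, 1, 0, 1, 1, 0, 0, 1],
    ![0, 0, 1, 0, 1, 1, 1, 0, 1, 0, 0, 1, 1, 1, 0, 1],
    ![1, 0, 1, 1, 0, 0, 1, 1, 1, 1, 0, 0, 0, 1, 0, 0],
    ![0, 1, 0, 0, 0, 1, 1, 1, 0, 1, 0, 1, 0, 0, 0, 0],
    ![1, 0, 1, 0, 0, 0, 0, 0, 0, 1, 1, 1, 0, 1, 1, 1],
    ![1, 1, 0, 0, 1, 0, 1, 0, 0, 1, 0, 0, 1, 1, 1, 1],
    ![1, 1, 1, 1, 1, 1, 0, 1, 0, 0, 0, 0, 0, 1, 0, 1],
    ![0, 0, 0, 1, 1, 0, 1, 1, 0, 0, 1, 1, 1, 1, 0, 0],
    ![0, 1, 1, 0, 1, 0, 1, 1, 1, 0, 1, 0, 0, 0, 1, 0],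
    ![0, 1, 0, 1, 0, 1, 0, 0, 1, 1, 1, 0, 0, 1, 1, 1],
    ![0, 0, 1, 1, 0, 1, 0, 1, 0, 1, 0, 0, 1, 0, 1, 1],
    ![1, 1, 1, 1, 0, 1, 1, 0, 0, 0, 1, 0, 1, 0, 0, 1]]

/-- The kernel vector of the gadget is `(1, bd)`. -/
def bd : Fin 15 → ℤ :=
  ![-26895, -31769, 560, 6888, -20343, 25248, 25854, 10746, 300, 8864, -4164, -32310, -30940, -18936, 76644]

/-- The inverse of the last fifteen columns of the gadget. -/
def Hi : Fin 15 → Fin 15 → ℤ :=
  ![![3119, 4475, 4315, -1241, -4670, 2791, -1687, 3596, 1629, 2500, -3592, -3416, -5373, -4030, 4470],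
    ![3684, 5286, 5097, -1466, -5516, 3297, -1993, 4248, 1924, 2953, -4243, -4035, -6347, -4760, 5280],
    ![-65, -93, -90, 26, 97, -58, 35, -75, -34, -52, 75, 71, 112, 84, -93],
    ![-799, -1146, -1105, 318, 1196, -715, 432, -921, -417, -640, 920, 875, 1376, 1032, -1145],
    ![2359, 3385, 3264, -939, -3532, 2111, -1276, 2720, 1232, 1891, -2717, -2584, -4064, -3048, 3381],
    ![-2928, -4201, -4051, 1165, 4384, -2620, 1584, -3376, -1529, -2347, 3372, 3207, 5044, 3783, -4196],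
    ![-2998, -4302, -4148, 1193, 4489, -2683, 1622, -3457, -1566, -2403, 3453, 3284, 5165, 3874, -4297],
    ![-1246, -1788, -1724, 496, 1866, -1115, 674, -1437, -651, -999, 1435, 1365, 2147, 1610, -1786],
    ![-35, -50, -48, 14, 52, -31, 19, -40, -18, -28, 40, 38, 60, 45, -50],
    ![-1028, -1475, -1422, 409, 1539, -920, 556, -1185, -537, -824, 1184, 1126, 1771, 1328, -1473],
    ![483, 693, 668, -192, -723, 432, -261, 557, 252, 387, -556, -529, -832, -624, 692],
    ![3747, 5376, 5184, -1491, -5610, 3353, -2027, 4320, 1957, 3003, -4315, -4104, -6455, -4841, 5370],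
    ![3588, 5148, 4964, -1428, -5372, 3211, -1941, 4137, 1874, 2876, -4132, -3930, -6181, -4636, 5142],
    ![2196, 3151, 3038, -874, -3288, 1965, -1188, 2532, 1147, 1760, -2529, -2405, -3783, -2837, 3147],
    ![-8888, -12753, -12297, 3537, 13308, -7954, 4808, -10248, -4642, -7124, 10236, 9735, 15312, 11484, -12738]]

theorem Gd01 : ∀ i j, Gd i j = 0 ∨ Gd i j = 1 := by decide +kernel

theorem Gd_bd : ∀ l, Gd l 0 + ∑ j : Fin 15, bd j * Gd l j.succ = 0 := by decide +kernel

theorem Hi_Gd : ∀ i j : Fin 15, ∑ l, Hi i l * Gd l j.succ = if i = j then 1 else 0 := by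
  decide +kernel

theorem bd_last : bd 14 = 76644 := rfl

/-- A vector annihilated by the last fifteen columns of the gadget is zero. -/
theorem Gd_inj {x : Fin 15 → ℤ} (h : ∀ l, ∑ j : Fin 15, x j * Gd l j.succ = 0) (i : Fin 15) :
    x i = 0 := by
  have h1 : ∑ l, Hi i l * ∑ j : Fin 15, x j * Gd l j.succ = 0 :=
    Finset.sum_eq_zero fun l _ => by rw [h l, mul_zero]
  have h2 : ∑ l, Hi i l * ∑ j : Fin 15, x j * Gd l j.succ = x i := by
    calc ∑ l, Hi i l * ∑ j : Fin 15, x j * Gd l j.succ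
        = ∑ l, ∑ j : Fin 15, x j * (Hi i l * Gd l j.succ) := by
          refine Finset.sum_congr rfl fun l _ => ?_
          rw [Finset.mul_sum]
          refine Finset.sum_congr rfl fun j _ => ?_
          ring
      _ = ∑ j : Fin 15, x j * ∑ l, Hi i l * Gd l j.succ := by
          rw [Finset.sum_comm]
          refine Finset.sum_congr rfl fun j _ => ?_
          rw [Finset.mul_sum]
      _ = ∑ j : Fin 15, x j * (if i = j then 1 else 0) := by
          refine Finset.sum_congr rfl fun j _ => ?_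
          rw [Hi_Gd]
      _ = x i := by simp
  rw [← h2, h1]

/-- The square block of the chain of `K` gadgets. -/
def Am (K : ℕ) : Matrix (Fin K × Fin 15) (Fin K × Fin 15) ℤ := fun a c =>
  if a.1 = c.1 then Gd c.2 a.2.succ
  else if a.1.val + 1 = c.1.val ∧ a.2 = 14 then Gd c.2 0 else 0

theorem Am01 {K : ℕ} (a c : Fin K × Fin 15) : Am K a c = 0 ∨ Am K a c = 1 := by
  unfold Am
  split_ifs
  · exact Gd01 _ _
  · exact Gd01 _ _
  · exact Or.inl rfl

theorem sum_Am {K : ℕ} (v : Fin K × Fin 15 → ℤ) (g : Fin K) (l : Fin 15) :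
    ∑ a, v a * Am K a (g, l) = ∑ j, v (g, j) * Gd l j.succ +
      (if h : 0 < g.val then v (⟨g.val - 1, by omega⟩, 14) * Gd l 0 else 0) := by
  rw [Fintype.sum_prod_type]
  have h1 : ∀ g' : Fin K, ∑ j, v (g', j) * Am K (g', j) (g, l) =
      (if g' = g then ∑ j, v (g, j) * Gd l j.succ else 0) +
        (if g'.val + 1 = g.val then v (g', 14) * Gd l 0 else 0) := by
    intro g'
    by_cases h : g' = g
    · subst h
      simp [Am]
    · by_cases h2 : g'.val + 1 = g.val
      · rw [if_neg h, if_pos h2, zero_add]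
        rw [Finset.sum_eq_single (14 : Fin 15)]
        · simp [Am, h, h2]
        · intro j _ hj
          simp [Am, h, hj]
        · intro h'
          exact absurd (Finset.mem_univ _) h'
      · rw [if_neg h, if_neg h2]
        simp [Am, h, h2]
  rw [Finset.sum_congr rfl fun g' _ => h1 g', Finset.sum_add_distrib]
  congr 1
  · simp
  · by_cases hg : 0 < g.val
    · rw [dif_pos hg, Finset.sum_eq_single (⟨g.val - 1, by omega⟩ : Fin K)]
      · rw [if_pos]
        simp only
        omega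
      · intro g' _ hg'
        rw [if_neg]
        intro h
        apply hg'
        ext
        simp only
        omega
      · intro h'
        exact absurd (Finset.mem_univ _) h'
    · rw [dif_neg hg]
      refine Finset.sum_eq_zero fun g' _ => ?_
      rw [if_neg]
      omega

theorem Am_det_ne_zero (K : ℕ) : (Am K).det ≠ 0 := by
  intro h
  obtain ⟨v, hv, hv0⟩ := Matrix.exists_vecMul_eq_zero_iff.2 h
  apply hv
  have key : ∀ n : ℕ, ∀ g : Fin K, g.val = n → ∀ j, v (g, j) = 0 := by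
    intro n
    induction n with
    | zero =>
      intro g hg j
      refine Gd_inj (x := fun j => v (g, j)) (fun l => ?_) j
      have h1 : (v ᵥ* Am K) (g, l) = 0 := by rw [hv0]; rfl
      rw [Matrix.vecMul, dotProduct, sum_Am, dif_neg (by omega), add_zero] at h1
      exact h1
    | succ n ih =>
      intro g hg j
      refine Gd_inj (x := fun j => v (g, j)) (fun l => ?_) j
      have h1 : (v ᵥ* Am K) (g, l) = 0 := by rw [hv0]; rfl
      rw [Matrix.vecMul, dotProduct, sum_Am, dif_pos (by omega),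
        ih ⟨g.val - 1, by omega⟩ (by simp only; omega), zero_mul, add_zero] at h1
      exact h1
  ext ⟨g, j⟩
  exact key g.val g rfl j

/-- The multipliers of the rows of the chain. -/
def mu {K : ℕ} (a : Fin K × Fin 15) : ℤ := 76644 ^ a.1.val * bd a.2

theorem sum_mu_Am {K : ℕ} (g : Fin K) (l : Fin 15) :
    (if g.val = 0 then Gd l 0 else 0) + ∑ a, mu a * Am K a (g, l) = 0 := by
  rw [sum_Am]
  have h0 := Gd_bd l
  have h1 : ∑ j, mu (g, j) * Gd l j.succ = 76644 ^ g.val * ∑ j, bd j * Gd l j.succ := by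
    rw [Finset.mul_sum]
    refine Finset.sum_congr rfl fun j _ => ?_
    simp only [mu]
    ring
  rw [h1]
  by_cases hg : 0 < g.val
  · rw [if_neg (by omega), dif_pos hg]
    simp only [mu, bd_last]
    have h2 : (76644 : ℤ) ^ g.val = 76644 ^ (g.val - 1) * 76644 := by
      rw [← pow_succ]
      congr 1
      omega
    rw [← h2, zero_add]
    have : (76644 : ℤ) ^ g.val * (∑ j, bd j * Gd l j.succ) + 76644 ^ g.val * Gd l 0 =
      76644 ^ g.val * (Gd l 0 + ∑ j, bd j * Gd l j.succ) := by ring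
    rw [this, h0, mul_zero]
  · have hg0 : g.val = 0 := by omega
    rw [if_pos hg0, dif_neg hg, hg0, pow_zero, one_mul, add_zero]
    exact h0

end Pool.Agent.H228R3
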