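import Mathlib
import Pool.Agent.H228R3.Gadget
import Pool.Agent.H228R3.FibBlock

set_option autoImplicit false

/-!
# The big block matrix and its determinant
-/

namespace Pool.Agent.H228R3

open Finset Matrix

/-- The upper right block. -/
def TR (m K : ℕ) : Matrix (Fin (m + 1)) (Fin K × Fin 15) ℤ := fun i c =>
  if i = 0 ∧ c.1.val = 0 then Gd c.2 0 else 0

/-- The big matrix. -/
def BigM (m K : ℕ) (C0 : Fin (m + 1) → ℤ) (C1 : Fin K × Fin 15 → Fin (m + 1) → ℤ) :
    Matrix (Fin (m + 1) ⊕ (Fin K × Fin 15)) (Fin (m + 1) ⊕ (Fin K × Fin 15)) ℤ :=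
  Matrix.fromBlocks (Nm m C0) (TR m K) (Matrix.of C1) (Am K)

theorem BigM01 {m K : ℕ} {C0 : Fin (m + 1) → ℤ} {C1 : Fin K × Fin 15 → Fin (m + 1) → ℤ}
    (h0 : ∀ j, C0 j = 0 ∨ C0 j = 1) (h1 : ∀ a j, C1 a j = 0 ∨ C1 a j = 1) (i j) :
    BigM m K C0 C1 i j = 0 ∨ BigM m K C0 C1 i j = 1 := by
  rcases i with i | i <;> rcases j with j | j
  · exact Nm01 h0 i j
  · simp only [BigM, Matrix.fromBlocks_apply₁₂, TR]
    split_ifs
    · exact Gd01 _ _
    · exact Or.inl rfl
  · exact h1 i j
  · exact Am01 i j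

theorem BigM_det (m K : ℕ) (C0 : Fin (m + 1) → ℤ) (C1 : Fin K × Fin 15 → Fin (m + 1) → ℤ) :
    (BigM m K C0 C1).det =
      (∑ j, C0 j * w j.val + ∑ a, mu a * ∑ j, C1 a j * w j.val) * (Am K).det := by
  set c : Fin (m + 1) ⊕ (Fin K × Fin 15) → ℤ :=
    Sum.elim (fun i => if i = 0 then 1 else 0) mu with hc
  have h1 := Matrix.det_updateRow_sum (BigM m K C0 C1) (Sum.inl 0) c
  have hc0 : c (Sum.inl 0) = 1 := by simp [hc]
  rw [hc0, one_smul] at h1
  have h2 : (BigM m K C0 C1).updateRow (Sum.inl 0) (∑ k, c k • BigM m K C0 C1 k) =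
      Matrix.fromBlocks (Nm m (fun j => C0 j + ∑ a, mu a * C1 a j)) 0 (Matrix.of C1) (Am K) := by
    ext i j
    rcases i with i | i
    · by_cases hi : i = 0
      · subst hi
        rw [Matrix.updateRow_self]
        rw [Finset.sum_apply, Fintype.sum_sum_type]
        simp only [Pi.smul_apply, smul_eq_mul, hc, Sum.elim_inl, Sum.elim_inr]
        rw [Finset.sum_eq_single (0 : Fin (m + 1)) (by
          intro b _ hb
          rw [if_neg hb, zero_mul]) (by
          intro h
          exact absurd (Finset.mem_univ _) h)]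
        rw [if_pos rfl, one_mul]
        rcases j with j | ⟨g, l⟩
        · simp [BigM, Nm]
        · simp only [BigM, Matrix.fromBlocks_apply₁₂, Matrix.fromBlocks_apply₂₂, TR, true_and,
            Matrix.zero_apply]
          exact sum_mu_Am g l
      · have hi' : (Sum.inl i : Fin (m + 1) ⊕ (Fin K × Fin 15)) ≠ Sum.inl 0 := by
          simpa using hi
        rw [Matrix.updateRow_ne hi']
        rcases j with j | j
        · simp [BigM, Nm, hi]
        · simp [BigM, TR, hi]
    · have hi' : (Sum.inr i : Fin (m + 1) ⊕ (Fin K × Fin 15)) ≠ Sum.inl 0 := by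
        simp
      rw [Matrix.updateRow_ne hi']
      rcases j with j | j
      · simp [BigM]
      · simp [BigM]
  rw [← h1, h2, Matrix.det_fromBlocks_zero₁₂, Nm_det]
  congr 1
  simp only [add_mul, Finset.sum_add_distrib]
  congr 1
  calc ∑ j : Fin (m + 1), (∑ a, mu a * C1 a j) * w j.val
      = ∑ j : Fin (m + 1), ∑ a, mu a * (C1 a j * w j.val) := by
        refine Finset.sum_congr rfl fun j _ => ?_
        rw [Finset.sum_mul]
        refine Finset.sum_congr rfl fun a _ => ?_
        ring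
    _ = ∑ a, ∑ j : Fin (m + 1), mu a * (C1 a j * w j.val) := Finset.sum_comm
    _ = ∑ a, mu a * ∑ j : Fin (m + 1), C1 a j * w j.val := by
        refine Finset.sum_congr rfl fun a _ => ?_
        rw [Finset.mul_sum]

/-- Reindexing a sum over the multiples of `L`. -/
theorem sum_dvd (L : ℕ) (hL : 1 ≤ L) (h : ℕ → ℤ) (n : ℕ) :
    ∑ g ∈ range (n * L), (if L ∣ g + 1 then h ((g + 1) / L) else 0) =
      ∑ j ∈ range n, h (j + 1) := by
  induction n with
  | zero => simp
  | succ n ih =>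
    rw [Nat.succ_mul, Finset.sum_range_add, ih, Finset.sum_range_succ]
    congr 1
    obtain ⟨k, rfl⟩ : ∃ k, L = k + 1 := ⟨L - 1, by omega⟩
    rw [Finset.sum_range_succ, Finset.sum_eq_zero, zero_add]
    · have h1 : n * (k + 1) + k + 1 = (n + 1) * (k + 1) := by ring
      rw [h1, if_pos (Dvd.intro_left _ rfl), Nat.mul_div_cancel _ (by omega)]
    · intro g hg
      rw [Finset.mem_range] at hg
      rw [if_neg]
      intro hd
      have h2 : k + 1 ∣ g + 1 := by
        have : n * (k + 1) + g + 1 = n * (k + 1) + (g + 1) := by ring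
        rw [this] at hd
        exact (Nat.dvd_add_right (Dvd.intro_left _ rfl)).1 hd
      have := Nat.le_of_dvd (by omega) h2
      omega

/-- All the values `∑ x_j Q^j` (shifted) are determinants, up to the fixed factor. -/
theorem exists_matrix (L : ℕ) (hL : 1 ≤ L) (x : Fin 10 → ℕ)
    (hx : ∀ j, x j ≤ Nat.fib (23 * L + 2)) :
    ∃ M : Matrix (Fin (23 * L + 1) ⊕ (Fin (9 * L) × Fin 15))
        (Fin (23 * L + 1) ⊕ (Fin (9 * L) × Fin 15)) ℤ,
      (∀ i j, M i j = 0 ∨ M i j = 1) ∧
      M.det = (∑ j : Fin 10, ((x j : ℤ) - NN (23 * L + 1)) * (76644 ^ L) ^ j.val) *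
        (Am (9 * L)).det := by
  choose c hc01 hc using fun j : Fin 10 => cover (23 * L + 1) (by omega) (x j) (hx j)
  -- extend to natural numbers
  set d : ℕ → ℕ → ℤ := fun j k => if h : j < 10 then c ⟨j, h⟩ k else 0 with hd
  have hd01 : ∀ j k, d j k = 0 ∨ d j k = 1 := by
    intro j k
    simp only [hd]
    split_ifs
    · exact hc01 _ _
    · exact Or.inl rfl
  set C0 : Fin (23 * L + 1) → ℤ := fun k => d 0 k.val with hC0
  set C1 : Fin (9 * L) × Fin 15 → Fin (23 * L + 1) → ℤ := fun a k =>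
    if a.2 = 14 ∧ L ∣ a.1.val + 1 then d ((a.1.val + 1) / L) k.val else 0 with hC1
  refine ⟨BigM (23 * L) (9 * L) C0 C1, BigM01 (fun k => hd01 _ _) (fun a k => ?_), ?_⟩
  · simp only [hC1]
    split_ifs
    · exact hd01 _ _
    · exact Or.inl rfl
  · rw [BigM_det]
    congr 1
    have hsum : ∀ j : Fin 10, ∑ k : Fin (23 * L + 1), d j.val k.val * w k.val =
        (x j : ℤ) - NN (23 * L + 1) := by
      intro j
      rw [Fin.sum_univ_eq_sum_range (fun k => d j.val k * w k) (23 * L + 1), ← hc j]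
      refine Finset.sum_congr rfl fun k _ => ?_
      simp only [hd, dif_pos j.isLt]
    obtain ⟨f, hf⟩ : ∃ f : ℕ → ℤ, ∀ t, f t =
        (76644 ^ L) ^ t * ∑ k : Fin (23 * L + 1), d t k.val * w k.val := ⟨_, fun _ => rfl⟩
    have h1 : ∀ a : Fin (9 * L) × Fin 15, mu a * ∑ k, C1 a k * w k.val =
        if a.2 = 14 then (if L ∣ a.1.val + 1 then f ((a.1.val + 1) / L) else 0) else 0 := by
      intro a
      by_cases h14 : a.2 = 14
      · by_cases hdv : L ∣ a.1.val + 1
        · simp only [hC1, h14, hdv, and_self, if_true, mu, bd_last, hf]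
          congr 1
          rw [← pow_mul, Nat.mul_div_cancel' hdv, pow_succ]
        · simp only [hC1, h14, hdv, and_false, if_false, if_true, zero_mul,
            Finset.sum_const_zero, mul_zero]
      · simp only [hC1, h14, false_and, if_false, zero_mul, Finset.sum_const_zero, mul_zero]
    rw [Finset.sum_congr rfl fun a _ => h1 a, Fintype.sum_prod_type]
    have h2 : ∀ g : Fin (9 * L), ∑ l : Fin 15,
        (if l = 14 then (if L ∣ g.val + 1 then f ((g.val + 1) / L) else 0) else 0) =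
        (fun g : ℕ => if L ∣ g + 1 then f ((g + 1) / L) else 0) g.val := by
      intro g
      rw [Finset.sum_ite_eq', if_pos (Finset.mem_univ _)]
    rw [Finset.sum_congr rfl fun g _ => h2 g,
      Fin.sum_univ_eq_sum_range (fun g : ℕ => if L ∣ g + 1 then f ((g + 1) / L) else 0) (9 * L),
      sum_dvd L hL f 9,
      Fin.sum_univ_succ (fun j : Fin 10 => ((x j : ℤ) - NN (23 * L + 1)) * (76644 ^ L) ^ j.val)]
    congr 1
    · simp only [Fin.val_zero, pow_zero, mul_one]
      rw [← hsum 0]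
      simp [hC0]
    · rw [← Fin.sum_univ_eq_sum_range (fun j => f (j + 1)) 9]
      refine Finset.sum_congr rfl fun j _ => ?_
      have := hsum j.succ
      rw [Fin.val_succ] at this
      rw [hf, this, Fin.val_succ]
      ring

theorem digits_inj (Q : ℕ) : ∀ (n : ℕ) (x y : ℕ → ℕ), (∀ j, x j < Q) → (∀ j, y j < Q) →
    ∑ j ∈ range n, x j * Q ^ j = ∑ j ∈ range n, y j * Q ^ j → ∀ j < n, x j = y j := by
  intro n
  induction n with
  | zero => intro x y _ _ _ j hj; omega
  | succ n ih =>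
    intro x y hx hy h
    rw [Finset.sum_range_succ', Finset.sum_range_succ'] at h
    have hx0 := hx 0
    have hy0 := hy 0
    have e : ∀ z : ℕ → ℕ, ∑ k ∈ range n, z (k + 1) * Q ^ (k + 1) =
        Q * ∑ k ∈ range n, z (k + 1) * Q ^ k := by
      intro z
      rw [Finset.mul_sum]
      refine Finset.sum_congr rfl fun k _ => ?_
      ring
    rw [e x, e y, pow_zero, mul_one, mul_one] at h
    have h0 : x 0 = y 0 := by
      have h1 : (Q * ∑ k ∈ range n, x (k + 1) * Q ^ k + x 0) % Q =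
          (Q * ∑ k ∈ range n, y (k + 1) * Q ^ k + y 0) % Q := by rw [h]
      rwa [Nat.mul_add_mod, Nat.mul_add_mod, Nat.mod_eq_of_lt hx0, Nat.mod_eq_of_lt hy0] at h1
    have h2 : ∑ k ∈ range n, x (k + 1) * Q ^ k = ∑ k ∈ range n, y (k + 1) * Q ^ k := by
      rw [h0] at h
      exact Nat.eq_of_mul_eq_mul_left (by omega) (Nat.add_right_cancel h)
    intro j hj
    rcases j with _ | j
    · exact h0
    · exact ih (fun k => x (k + 1)) (fun k => y (k + 1)) (fun k => hx _) (fun k => hy _) h2 j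
        (by omega)

theorem value_inj (L : ℕ) (hL : 1 ≤ L) (N D : ℤ) (hD : D ≠ 0) (x y : Fin 10 → ℕ)
    (hx : ∀ j, x j ≤ Nat.fib (23 * L + 2)) (hy : ∀ j, y j ≤ Nat.fib (23 * L + 2))
    (h : (∑ j : Fin 10, ((x j : ℤ) - N) * (76644 ^ L) ^ j.val) * D =
      (∑ j : Fin 10, ((y j : ℤ) - N) * (76644 ^ L) ^ j.val) * D) : x = y := by
  have h1 := mul_right_cancel₀ hD h
  have hF : Nat.fib (23 * L + 2) < 76644 ^ L :=
    lt_of_le_of_lt (fib_upper L) (Nat.pow_lt_pow_left (by norm_num) (by omega))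
  have h2 : ∑ j : Fin 10, (x j : ℤ) * (76644 ^ L) ^ j.val =
      ∑ j : Fin 10, (y j : ℤ) * (76644 ^ L) ^ j.val := by
    have e : ∀ z : Fin 10 → ℕ, ∑ j : Fin 10, ((z j : ℤ) - N) * (76644 ^ L) ^ j.val =
        ∑ j : Fin 10, (z j : ℤ) * (76644 ^ L) ^ j.val - ∑ j : Fin 10, N * (76644 ^ L) ^ j.val := by
      intro z
      rw [← Finset.sum_sub_distrib]
      refine Finset.sum_congr rfl fun j _ => ?_
      ring
    rw [e x, e y] at h1
    linarith
  set X : ℕ → ℕ := fun j => if h : j < 10 then x ⟨j, h⟩ else 0 with hX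
  set Y : ℕ → ℕ := fun j => if h : j < 10 then y ⟨j, h⟩ else 0 with hY
  have hXx : ∀ j : Fin 10, X j.val = x j := fun j => by simp only [hX, dif_pos j.isLt]
  have hYy : ∀ j : Fin 10, Y j.val = y j := fun j => by simp only [hY, dif_pos j.isLt]
  have h3 : ∑ j ∈ range 10, X j * (76644 ^ L) ^ j = ∑ j ∈ range 10, Y j * (76644 ^ L) ^ j := by
    rw [← Fin.sum_univ_eq_sum_range (fun j => X j * (76644 ^ L) ^ j) 10,
      ← Fin.sum_univ_eq_sum_range (fun j => Y j * (76644 ^ L) ^ j) 10]
    have : ((∑ j : Fin 10, X j.val * (76644 ^ L) ^ j.val : ℕ) : ℤ) =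
        ((∑ j : Fin 10, Y j.val * (76644 ^ L) ^ j.val : ℕ) : ℤ) := by
      push_cast
      simp only [hXx, hYy]
      exact h2
    exact_mod_cast this
  have h4 := digits_inj (76644 ^ L) 10 X Y
    (fun j => by
      simp only [hX]
      split_ifs
      · exact lt_of_le_of_lt (hx _) hF
      · positivity)
    (fun j => by
      simp only [hY]
      split_ifs
      · exact lt_of_le_of_lt (hy _) hF
      · positivity) h3
  ext j
  rw [← hXx, ← hYy]
  exact h4 j.val j.isLt

end Pool.Agent.H228R3
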