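import Mathlib

set_option autoImplicit false

/-!
# A `6 × 6` zero-nonzero pattern with eleven nonzero entries
-/

namespace Pool.Agent.H228R3.Sap

open Polynomial Matrix

/-- The monic quadratic polynomial `X² - u X + v`. -/
noncomputable def quad (u v : ℝ) : ℝ[X] := X ^ 2 - C u * X + C v

/-- The general matrix (up to diagonal similarity) with the six-by-six pattern. -/
def C6 (a b p q r s : ℝ) : Matrix (Fin 6) (Fin 6) ℝ :=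
  !![0, 0, 0, s, q, p;
     1, a, 0, r, 0, 0;
     0, 0, 0, 0, 1, 0;
     0, 0, 1, 0, 0, 0;
     0, 1, 0, 0, 0, 0;
     1, 0, 0, 0, 0, b]

theorem C6_charpoly (a b p q r s : ℝ) : (C6 a b p q r s).charpoly =
    X ^ 6 - C (a + b) * X ^ 5 + C (a * b - p) * X ^ 4 - C (q - p * a) * X ^ 3 +
      C (q * b - r) * X ^ 2 - C (s - r * b) * X + C (s * b + r * p) := by
  have h1 : charmatrix (C6 a b p q r s) =
      !![X, 0, 0, -C s, -C q, -C p;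
         -1, X - C a, 0, -C r, 0, 0;
         0, 0, X, 0, -1, 0;
         0, 0, -1, X, 0, 0;
         0, -1, 0, 0, X, 0;
         -1, 0, 0, 0, 0, X - C b] := by
    ext i j
    fin_cases i <;> fin_cases j <;> simp [charmatrix, C6]
  rw [Matrix.charpoly, h1]
  simp [Matrix.det_succ_row_zero, Fin.sum_univ_succ, Fin.succAbove]
  ring

/-- The coefficients `E₁, ..., E₆` are attained by nonzero parameters. -/
def Solv (E₁ E₂ E₃ E₄ E₅ E₆ : ℝ) : Prop :=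
  ∃ a b p q r s : ℝ, a ≠ 0 ∧ b ≠ 0 ∧ p ≠ 0 ∧ q ≠ 0 ∧ r ≠ 0 ∧ s ≠ 0 ∧
    a + b = E₁ ∧ a * b - p = E₂ ∧ q - p * a = E₃ ∧ q * b - r = E₄ ∧ s - r * b = E₅ ∧
      s * b + r * p = E₆

theorem solv_pos {E₁ E₂ E₃ E₄ E₅ E₆ : ℝ} (h1 : 0 < E₁) (h2 : 0 < E₂) (h3 : 0 < E₃) (h4 : 0 < E₄)
    (h5 : 0 < E₅) (h6 : 0 < E₆) (h24 : E₆ < E₂ * E₄) (h14 : E₅ < E₁ * E₄) :
    Solv E₁ E₂ E₃ E₄ E₅ E₆ := by
  -- `b = -t`, `t > 0`, root of `F`
  set R : ℝ → ℝ := fun t => t * (t + E₁) * (t ^ 2 + E₁ * t + E₂) - E₃ * t - E₄ with hR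
  set F : ℝ → ℝ := fun t => -E₅ * t - E₆ - (E₁ * t + E₂) * R t with hF
  have hcont : Continuous F := by
    simp only [hF, hR]
    fun_prop
  have hF0 : 0 < F 0 := by
    simp only [hF, hR]
    nlinarith
  set T := 1 + E₃ + E₄ with hT
  have hT1 : 1 ≤ T := by linarith
  have hFT : F T < 0 := by
    have hT0 : 0 < T := by linarith
    have hR0 : 0 ≤ R T := by
      have ha : T ^ 2 * T ^ 2 ≤ T * (T + E₁) * (T ^ 2 + E₁ * T + E₂) := by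
        apply mul_le_mul
        · nlinarith
        · nlinarith [mul_pos h1 hT0]
        · positivity
        · positivity
      have hb : T * 1 ≤ T ^ 2 := by nlinarith
      have hc : T ^ 2 * 1 ≤ T ^ 2 * T ^ 2 := by
        apply mul_le_mul_of_nonneg_left _ (by positivity)
        nlinarith
      have hd : E₃ * T + E₄ ≤ T ^ 2 := by
        have : T ^ 2 = T * (1 + E₃ + E₄) := by rw [← hT]; ring
        rw [this]
        nlinarith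
      simp only [hR]
      linarith
    have : 0 < E₁ * T + E₂ := by positivity
    simp only [hF]
    have h7 := mul_nonneg this.le hR0
    have h8 := mul_pos h5 hT0
    linarith
  obtain ⟨t, ht, hFt⟩ : ∃ t ∈ Set.Icc 0 T, F t = 0 := by
    have := intermediate_value_Icc' (by linarith : (0 : ℝ) ≤ T) hcont.continuousOn
    obtain ⟨t, ht, h⟩ := this ⟨hFT.le, hF0.le⟩
    exact ⟨t, ht, h⟩
  have ht0 : 0 < t := by
    rcases ht.1.lt_or_eq with h | h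
    · exact h
    · rw [← h] at hFt
      linarith
  have hpos : 0 < E₁ * t + E₂ := by positivity
  -- the parameters
  set b := -t with hb
  set a := E₁ + t with ha
  set p := -(t ^ 2 + E₁ * t + E₂) with hp
  set q := E₃ + p * a with hq
  set r := q * b - E₄ with hr
  set s := E₅ + r * b with hs
  have hrR : r = R t := by
    simp only [hr, hq, hb, hp, ha, hR]
    ring
  have hFe : (E₁ * t + E₂) * r = -(E₅ * t + E₆) := by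
    rw [hrR]
    simp only [hF] at hFt
    linarith
  have hrneg : r < 0 := by
    by_contra hcon
    rw [not_lt] at hcon
    have h7 := mul_nonneg hpos.le hcon
    have h8 := mul_pos h5 ht0
    linarith
  have hp0 : p < 0 := by
    have : 0 < t ^ 2 + E₁ * t + E₂ := by positivity
    simp only [hp]
    linarith
  refine ⟨a, b, p, q, r, s, ?_, ?_, hp0.ne, ?_, hrneg.ne, ?_, ?_, ?_, ?_, ?_, ?_, ?_⟩
  · have : 0 < a := by simp only [ha]; positivity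
    exact this.ne'
  · have : b < 0 := by simp only [hb]; linarith
    exact this.ne
  · intro hq0
    have hr4 : r = -E₄ := by rw [hr, hq0]; ring
    rw [hr4] at hFe
    nlinarith
  · have : 0 < s := by
      simp only [hs, hb]
      nlinarith
    exact this.ne'
  · simp only [ha, hb]; ring
  · simp only [ha, hb, hp]; ring
  · simp only [hq]; ring
  · simp only [hr]; ring
  · simp only [hs]; ring
  · have : s * b + r * p = -(E₅ * t) - (E₁ * t + E₂) * r := by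
      simp only [hs, hb, hp]
      ring
    rw [this, hFe]
    ring

theorem Solv.neg {E₁ E₂ E₃ E₄ E₅ E₆ : ℝ} (h : Solv E₁ E₂ E₃ E₄ E₅ E₆) :
    Solv (-E₁) E₂ (-E₃) E₄ (-E₅) E₆ := by
  obtain ⟨a, b, p, q, r, s, ha, hb, hp, hq, hr, hs, e1, e2, e3, e4, e5, e6⟩ := h
  refine ⟨-a, -b, p, -q, r, -s, neg_ne_zero.2 ha, neg_ne_zero.2 hb, hp, neg_ne_zero.2 hq, hr,
    neg_ne_zero.2 hs, ?_, ?_, ?_, ?_, ?_, ?_⟩
  · rw [← e1]; ring
  · rw [← e2]; ring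
  · rw [← e3]; ring
  · rw [← e4]; ring
  · rw [← e5]; ring
  · rw [← e6]; ring

theorem solv_zero {E₂ E₄ E₆ : ℝ} (h2 : 0 < E₂) (h4 : 0 < E₄) (h6 : 0 < E₆)
    (h24 : E₆ < E₂ * E₄) : Solv 0 E₂ 0 E₄ 0 E₆ := by
  -- `b² = y` with `E₂ (y² + E₂ y - E₄) + E₆ = 0`
  set G : ℝ → ℝ := fun y => E₂ * (y ^ 2 + E₂ * y - E₄) + E₆ with hG
  have hcont : Continuous G := by
    simp only [hG]
    fun_prop
  have hG0 : G 0 < 0 := by
    simp only [hG]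
    nlinarith
  set T := 1 + E₄ with hT
  have hGT : 0 < G T := by
    simp only [hG]
    have h7 : 0 < T := by positivity
    have h8 : E₄ ≤ T ^ 2 := by
      simp only [hT]
      nlinarith
    have h9 : 0 < E₂ * (T ^ 2 + E₂ * T - E₄) := by
      apply mul_pos h2
      have := mul_pos h2 h7
      linarith
    linarith
  obtain ⟨y, hy, hGy⟩ : ∃ y ∈ Set.Icc 0 T, G y = 0 := by
    have := intermediate_value_Icc (by positivity : (0 : ℝ) ≤ T) hcont.continuousOn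
    obtain ⟨y, hy, h⟩ := this ⟨hG0.le, hGT.le⟩
    exact ⟨y, hy, h⟩
  have hy0 : 0 < y := by
    rcases hy.1.lt_or_eq with h | h
    · exact h
    · rw [← h] at hGy
      linarith
  set b := Real.sqrt y with hb
  have hb0 : 0 < b := Real.sqrt_pos.2 hy0
  have hbb : b ^ 2 = y := Real.sq_sqrt hy0.le
  set r := y ^ 2 + E₂ * y - E₄ with hr
  have hGe : E₂ * r = -E₆ := by
    simp only [hG] at hGy
    linarith
  have hrneg : r < 0 := by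
    by_contra hcon
    rw [not_lt] at hcon
    have := mul_nonneg h2.le hcon
    linarith
  have hyE : 0 < y + E₂ := by positivity
  refine ⟨-b, b, -(y + E₂), b * (y + E₂), r, r * b, (neg_neg_of_pos hb0).ne, hb0.ne',
    (neg_neg_of_pos hyE).ne, (mul_pos hb0 hyE).ne', hrneg.ne, (mul_neg_of_neg_of_pos hrneg hb0).ne,
    by ring, ?_, by ring, ?_, by ring, ?_⟩
  · rw [← hbb]; ring
  · have : b * (y + E₂) * b - r = b ^ 2 * (y + E₂) - r := by ring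
    rw [this, hbb, hr]
    ring
  · have : r * b * b + r * -(y + E₂) = r * b ^ 2 - r * y - E₂ * r := by ring
    rw [this, hbb, hGe]
    ring

theorem solv_nil : Solv 0 0 0 0 0 0 :=
  ⟨-1, 1, -1, 1, 1, 1, by norm_num, by norm_num, by norm_num, by norm_num, by norm_num,
    by norm_num, by norm_num, by norm_num, by norm_num, by norm_num, by norm_num, by norm_num⟩

/-- The six-by-six pattern. -/
def z6 : Matrix (Fin 6) (Fin 6) Bool :=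
  !![false, false, false, true, true, true;
     true, true, false, true, false, false;
     false, false, false, false, true, false;
     false, false, true, false, false, false;
     false, true, false, false, false, false;
     true, false, false, false, false, true]

/-- The polynomial `g` is the characteristic polynomial of a matrix with pattern `z6`. -/
def Real6 (g : ℝ[X]) : Prop :=
  ∃ A : Matrix (Fin 6) (Fin 6) ℝ, (∀ i j, A i j ≠ 0 ↔ z6 i j = true) ∧ A.charpoly = g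

theorem Solv.real6 {E₁ E₂ E₃ E₄ E₅ E₆ : ℝ} (h : Solv E₁ E₂ E₃ E₄ E₅ E₆) :
    Real6 (X ^ 6 - C E₁ * X ^ 5 + C E₂ * X ^ 4 - C E₃ * X ^ 3 + C E₄ * X ^ 2 - C E₅ * X +
      C E₆) := by
  obtain ⟨a, b, p, q, r, s, ha, hb, hp, hq, hr, hs, e1, e2, e3, e4, e5, e6⟩ := h
  refine ⟨C6 a b p q r s, ?_, ?_⟩
  · intro i j
    fin_cases i <;> fin_cases j <;> simp [C6, z6, ha, hb, hp, hq, hr, hs]
  · rw [C6_charpoly, e1, e2, e3, e4, e5, e6]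

theorem quad3 (u₁ v₁ u₂ v₂ u₃ v₃ : ℝ) : quad u₁ v₁ * quad u₂ v₂ * quad u₃ v₃ =
    X ^ 6 - C (u₁ + u₂ + u₃) * X ^ 5 + C (v₁ + v₂ + v₃ + (u₁ * u₂ + u₁ * u₃ + u₂ * u₃)) * X ^ 4 -
      C (u₁ * u₂ * u₃ + (u₁ * v₂ + u₁ * v₃ + u₂ * v₁ + u₂ * v₃ + u₃ * v₁ + u₃ * v₂)) * X ^ 3 +
      C (v₁ * v₂ + v₁ * v₃ + v₂ * v₃ + (u₁ * u₂ * v₃ + u₁ * u₃ * v₂ + u₂ * u₃ * v₁)) * X ^ 2 -
      C (u₁ * v₂ * v₃ + u₂ * v₁ * v₃ + u₃ * v₁ * v₂) * X + C (v₁ * v₂ * v₃) := by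
  simp only [quad, map_add, map_mul]
  ring

theorem solv_quad_pos {u₁ v₁ u₂ v₂ u₃ v₃ : ℝ} (hu1 : 0 < u₁) (hu2 : 0 < u₂) (hu3 : 0 < u₃)
    (hv1 : 0 < v₁) (hv2 : 0 < v₂) (hv3 : 0 < v₃) :
    Solv (u₁ + u₂ + u₃) (v₁ + v₂ + v₃ + (u₁ * u₂ + u₁ * u₃ + u₂ * u₃))
      (u₁ * u₂ * u₃ + (u₁ * v₂ + u₁ * v₃ + u₂ * v₁ + u₂ * v₃ + u₃ * v₁ + u₃ * v₂))
      (v₁ * v₂ + v₁ * v₃ + v₂ * v₃ + (u₁ * u₂ * v₃ + u₁ * u₃ * v₂ + u₂ * u₃ * v₁))
      (u₁ * v₂ * v₃ + u₂ * v₁ * v₃ + u₃ * v₁ * v₂) (v₁ * v₂ * v₃) := by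
  refine solv_pos (by positivity) (by positivity) (by positivity) (by positivity)
    (by positivity) (by positivity) ?_ ?_
  · have : 0 < (v₁ + v₂ + v₃ + (u₁ * u₂ + u₁ * u₃ + u₂ * u₃)) *
        (v₁ * v₂ + v₁ * v₃ + v₂ * v₃ + (u₁ * u₂ * v₃ + u₁ * u₃ * v₂ + u₂ * u₃ * v₁)) -
        v₁ * v₂ * v₃ := by
      have h : (v₁ + v₂ + v₃ + (u₁ * u₂ + u₁ * u₃ + u₂ * u₃)) *
        (v₁ * v₂ + v₁ * v₃ + v₂ * v₃ + (u₁ * u₂ * v₃ + u₁ * u₃ * v₂ + u₂ * u₃ * v₁)) -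
        v₁ * v₂ * v₃ = (v₂ + v₃ + (u₁ * u₂ + u₁ * u₃ + u₂ * u₃)) *
        (v₁ * v₂ + v₁ * v₃ + v₂ * v₃ + (u₁ * u₂ * v₃ + u₁ * u₃ * v₂ + u₂ * u₃ * v₁)) +
        v₁ * (v₁ * v₂ + v₁ * v₃ + (u₁ * u₂ * v₃ + u₁ * u₃ * v₂ + u₂ * u₃ * v₁)) := by ring
      rw [h]
      positivity
    linarith
  · have : 0 < (u₁ + u₂ + u₃) *
        (v₁ * v₂ + v₁ * v₃ + v₂ * v₃ + (u₁ * u₂ * v₃ + u₁ * u₃ * v₂ + u₂ * u₃ * v₁)) -
        (u₁ * v₂ * v₃ + u₂ * v₁ * v₃ + u₃ * v₁ * v₂) := by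
      have h : (u₁ + u₂ + u₃) *
        (v₁ * v₂ + v₁ * v₃ + v₂ * v₃ + (u₁ * u₂ * v₃ + u₁ * u₃ * v₂ + u₂ * u₃ * v₁)) -
        (u₁ * v₂ * v₃ + u₂ * v₁ * v₃ + u₃ * v₁ * v₂) =
        (u₁ + u₂ + u₃) * (u₁ * u₂ * v₃ + u₁ * u₃ * v₂ + u₂ * u₃ * v₁) +
        u₁ * (v₁ * v₂ + v₁ * v₃) + u₂ * (v₁ * v₂ + v₂ * v₃) + u₃ * (v₁ * v₃ + v₂ * v₃) := by ring
      rw [h]
      positivity
    linarith

theorem real6_pos {u₁ v₁ u₂ v₂ u₃ v₃ : ℝ} (hu1 : 0 < u₁) (hu2 : 0 < u₂) (hu3 : 0 < u₃)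
    (hv1 : 0 < v₁) (hv2 : 0 < v₂) (hv3 : 0 < v₃) :
    Real6 (quad u₁ v₁ * quad u₂ v₂ * quad u₃ v₃) := by
  rw [quad3]
  exact (solv_quad_pos hu1 hu2 hu3 hv1 hv2 hv3).real6

theorem real6_neg {u₁ v₁ u₂ v₂ u₃ v₃ : ℝ} (hu1 : u₁ < 0) (hu2 : u₂ < 0) (hu3 : u₃ < 0)
    (hv1 : 0 < v₁) (hv2 : 0 < v₂) (hv3 : 0 < v₃) :
    Real6 (quad u₁ v₁ * quad u₂ v₂ * quad u₃ v₃) := by
  rw [quad3]
  have h := (solv_quad_pos (neg_pos.2 hu1) (neg_pos.2 hu2) (neg_pos.2 hu3) hv1 hv2 hv3).neg.real6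
  have e1 : -(-u₁ + -u₂ + -u₃) = u₁ + u₂ + u₃ := by ring
  have e2 : v₁ + v₂ + v₃ + (-u₁ * -u₂ + -u₁ * -u₃ + -u₂ * -u₃) =
    v₁ + v₂ + v₃ + (u₁ * u₂ + u₁ * u₃ + u₂ * u₃) := by ring
  have e3 : -(-u₁ * -u₂ * -u₃ + (-u₁ * v₂ + -u₁ * v₃ + -u₂ * v₁ + -u₂ * v₃ + -u₃ * v₁ + -u₃ * v₂))
    = u₁ * u₂ * u₃ + (u₁ * v₂ + u₁ * v₃ + u₂ * v₁ + u₂ * v₃ + u₃ * v₁ + u₃ * v₂) := by ring
  have e4 : v₁ * v₂ + v₁ * v₃ + v₂ * v₃ + (-u₁ * -u₂ * v₃ + -u₁ * -u₃ * v₂ + -u₂ * -u₃ * v₁) =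
    v₁ * v₂ + v₁ * v₃ + v₂ * v₃ + (u₁ * u₂ * v₃ + u₁ * u₃ * v₂ + u₂ * u₃ * v₁) := by ring
  have e5 : -(-u₁ * v₂ * v₃ + -u₂ * v₁ * v₃ + -u₃ * v₁ * v₂) =
    u₁ * v₂ * v₃ + u₂ * v₁ * v₃ + u₃ * v₁ * v₂ := by ring
  rw [e1, e2, e3, e4, e5] at h
  exact h

theorem real6_zero {v₁ v₂ v₃ : ℝ} (hv1 : 0 < v₁) (hv2 : 0 < v₂) (hv3 : 0 < v₃) :
    Real6 (quad 0 v₁ * quad 0 v₂ * quad 0 v₃) := by
  rw [quad3]
  have h := (solv_zero (E₂ := v₁ + v₂ + v₃) (E₄ := v₁ * v₂ + v₁ * v₃ + v₂ * v₃)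
    (E₆ := v₁ * v₂ * v₃) (by positivity) (by positivity) (by positivity) ?_).real6
  · have e : (X ^ 6 - C (0 + 0 + 0) * X ^ 5 + C (v₁ + v₂ + v₃ + (0 * 0 + 0 * 0 + 0 * 0)) * X ^ 4 -
      C (0 * 0 * 0 + (0 * v₂ + 0 * v₃ + 0 * v₁ + 0 * v₃ + 0 * v₁ + 0 * v₂)) * X ^ 3 +
      C (v₁ * v₂ + v₁ * v₃ + v₂ * v₃ + (0 * 0 * v₃ + 0 * 0 * v₂ + 0 * 0 * v₁)) * X ^ 2 -
      C (0 * v₂ * v₃ + 0 * v₁ * v₃ + 0 * v₁ * v₂) * X + C (v₁ * v₂ * v₃) : ℝ[X]) =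
      X ^ 6 - C 0 * X ^ 5 + C (v₁ + v₂ + v₃) * X ^ 4 - C 0 * X ^ 3 +
        C (v₁ * v₂ + v₁ * v₃ + v₂ * v₃) * X ^ 2 - C 0 * X + C (v₁ * v₂ * v₃) := by
      simp only [zero_mul, add_zero]
    rw [e]
    exact h
  · have h : (v₁ + v₂ + v₃) * (v₁ * v₂ + v₁ * v₃ + v₂ * v₃) = v₁ * v₂ * v₃ +
      (v₁ * (v₁ * v₂ + v₁ * v₃) + (v₂ + v₃) * (v₁ * v₂ + v₁ * v₃ + v₂ * v₃)) := by ring
    rw [h]
    have : 0 < v₁ * (v₁ * v₂ + v₁ * v₃) + (v₂ + v₃) * (v₁ * v₂ + v₁ * v₃ + v₂ * v₃) := by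
      positivity
    linarith

theorem real6_nil : Real6 (X ^ 6) := by
  have h := solv_nil.real6
  simpa using h

end Pool.Agent.H228R3.Sap
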