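import Mathlib
import Pool.Agent.H228R3.SapSix

set_option autoImplicit false

/-!
# Real factorizations sorted by the sign of the real part
-/

namespace Pool.Agent.H228R3.Sap

open Polynomial Matrix

theorem quad_monic (u v : ℝ) : IsMonicOfDegree (quad u v) 2 := by
  have h : quad u v = X ^ 2 + (-C u * X + C v) := by
    simp only [quad]
    ring
  have h2 : (-C u * X + C v : ℝ[X]).degree < (2 : ℕ) := by
    have h3 : (-C u * X + C v : ℝ[X]) = C (-u) * X + C v := by simp
    rw [h3]
    exact lt_of_le_of_lt degree_linear_le (by norm_num)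
  rw [h]
  exact ⟨by
    rw [natDegree_add_eq_left_of_degree_lt]
    · simp
    · rw [degree_X_pow]
      exact h2, monic_X_pow_add (by exact_mod_cast h2)⟩

/-- Every monic polynomial of degree two is of the form `quad u v`. -/
theorem exists_quad {f : ℝ[X]} (hf : IsMonicOfDegree f 2) : ∃ u v : ℝ, f = quad u v := by
  refine ⟨-f.coeff 1, f.coeff 0, ?_⟩
  have h1 := f.as_sum_range_C_mul_X_pow
  have h2 : f.coeff 2 = 1 := by
    have := hf.monic.coeff_natDegree
    rwa [hf.natDegree_eq] at this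
  rw [hf.natDegree_eq, Finset.sum_range_succ, Finset.sum_range_succ, Finset.sum_range_one, h2] at h1
  rw [h1]
  simp [quad]
  ring

theorem exists_lin {f : ℝ[X]} (hf : IsMonicOfDegree f 1) : ∃ r : ℝ, f = X - C r := by
  refine ⟨-f.coeff 0, ?_⟩
  have h1 := f.as_sum_range_C_mul_X_pow
  have h2 : f.coeff 1 = 1 := by
    have := hf.monic.coeff_natDegree
    rwa [hf.natDegree_eq] at this
  rw [hf.natDegree_eq, Finset.sum_range_succ, Finset.sum_range_one, h2] at h1
  rw [h1]
  simp
  ring

/-- The product of the quadratics of a list. -/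
noncomputable def QP (L : List (ℝ × ℝ)) : ℝ[X] := (L.map fun x => quad x.1 x.2).prod

theorem QP_cons (x : ℝ × ℝ) (L : List (ℝ × ℝ)) : QP (x :: L) = quad x.1 x.2 * QP L := by
  simp [QP]

/-- `f` is a product of: at most one `X - α` with `α > 0`, at most one `X + β` with `β > 0`, a power
of `X`, quadratics with `u > 0`, `u < 0` and `u = 0` (always `v > 0`), with total degree `n`. -/
def Good (n : ℕ) (f : ℝ[X]) : Prop :=
  ∃ (i j k : ℕ) (α β : ℝ) (L₀ L₁ L₂ : List (ℝ × ℝ)), i ≤ 1 ∧ j ≤ 1 ∧ 0 < α ∧ 0 < β ∧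
    (∀ x ∈ L₀, 0 < x.1 ∧ 0 < x.2) ∧ (∀ x ∈ L₁, x.1 < 0 ∧ 0 < x.2) ∧
    (∀ x ∈ L₂, x.1 = 0 ∧ 0 < x.2) ∧
    i + j + k + 2 * (L₀.length + L₁.length + L₂.length) = n ∧
    f = (X - C α) ^ i * (X + C β) ^ j * X ^ k * QP L₀ * QP L₁ * QP L₂

theorem good_one : Good 0 1 :=
  ⟨0, 0, 0, 1, 1, [], [], [], by norm_num, by norm_num, by norm_num, by norm_num,
    by simp, by simp, by simp, by simp, by simp [QP]⟩

theorem Good.lin {n : ℕ} {f : ℝ[X]} (h : Good n f) (r : ℝ) : Good (n + 1) ((X - C r) * f) := by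
  obtain ⟨i, j, k, α, β, L₀, L₁, L₂, hi, hj, hα, hβ, h0, h1, h2, hn, rfl⟩ := h
  rcases lt_trichotomy r 0 with hr | hr | hr
  · have hr' : 0 < -r := by linarith
    by_cases hj0 : j = 0
    · subst hj0
      refine ⟨i, 1, k, α, -r, L₀, L₁, L₂, hi, le_rfl, hα, hr', h0, h1, h2, by omega, ?_⟩
      simp only [map_neg]
      ring
    · have hj1 : j = 1 := by omega
      subst hj1
      refine ⟨i, 0, k, α, β, L₀, (-(β + -r), β * -r) :: L₁, L₂, hi, by norm_num, hα, hβ, h0, ?_,
        h2, by simp only [List.length_cons]; omega, ?_⟩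
      · intro x hx
        rcases List.mem_cons.1 hx with rfl | hx
        · exact ⟨by simp only; linarith, by simp only; positivity⟩
        · exact h1 x hx
      · rw [QP_cons]
        simp only [quad, map_neg, map_add, map_mul]
        ring
  · subst hr
    refine ⟨i, j, k + 1, α, β, L₀, L₁, L₂, hi, hj, hα, hβ, h0, h1, h2, by omega, ?_⟩
    simp only [map_zero]
    ring
  · by_cases hi0 : i = 0
    · subst hi0
      refine ⟨1, j, k, r, β, L₀, L₁, L₂, le_rfl, hj, hr, hβ, h0, h1, h2, by omega, ?_⟩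
      ring
    · have hi1 : i = 1 := by omega
      subst hi1
      refine ⟨0, j, k, α, β, (α + r, α * r) :: L₀, L₁, L₂, by norm_num, hj, hα, hβ, ?_, h1,
        h2, by simp only [List.length_cons]; omega, ?_⟩
      · intro x hx
        rcases List.mem_cons.1 hx with rfl | hx
        · exact ⟨by simp only; linarith, by simp only; positivity⟩
        · exact h0 x hx
      · rw [QP_cons]
        simp only [quad, map_add, map_mul]
        ring

theorem Good.quad {n : ℕ} {f : ℝ[X]} (h : Good n f) (u v : ℝ) :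
    Good (n + 2) (Sap.quad u v * f) := by
  by_cases hd : u ^ 2 < 4 * v
  · have hv : 0 < v := by nlinarith [sq_nonneg u]
    obtain ⟨i, j, k, α, β, L₀, L₁, L₂, hi, hj, hα, hβ, h0, h1, h2, hn, rfl⟩ := h
    rcases lt_trichotomy u 0 with hu | hu | hu
    · refine ⟨i, j, k, α, β, L₀, (u, v) :: L₁, L₂, hi, hj, hα, hβ, h0, ?_, h2,
        by simp only [List.length_cons]; omega, ?_⟩
      · intro x hx
        rcases List.mem_cons.1 hx with rfl | hx
        · exact ⟨hu, hv⟩
        · exact h1 x hx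
      · rw [QP_cons]
        ring
    · refine ⟨i, j, k, α, β, L₀, L₁, (u, v) :: L₂, hi, hj, hα, hβ, h0, h1, ?_,
        by simp only [List.length_cons]; omega, ?_⟩
      · intro x hx
        rcases List.mem_cons.1 hx with rfl | hx
        · exact ⟨hu, hv⟩
        · exact h2 x hx
      · rw [QP_cons]
        ring
    · refine ⟨i, j, k, α, β, (u, v) :: L₀, L₁, L₂, hi, hj, hα, hβ, ?_, h1, h2,
        by simp only [List.length_cons]; omega, ?_⟩
      · intro x hx
        rcases List.mem_cons.1 hx with rfl | hx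
        · exact ⟨hu, hv⟩
        · exact h0 x hx
      · rw [QP_cons]
        ring
  · rw [not_lt] at hd
    -- real roots
    set w := Real.sqrt (u ^ 2 - 4 * v) with hw
    have hww : w ^ 2 = u ^ 2 - 4 * v := Real.sq_sqrt (by linarith)
    have e : Sap.quad u v = (X - C ((u + w) / 2)) * (X - C ((u - w) / 2)) := by
      have e1 : (u + w) / 2 + (u - w) / 2 = u := by ring
      have e2 : (u + w) / 2 * ((u - w) / 2) = v := by nlinarith
      have : (X - C ((u + w) / 2)) * (X - C ((u - w) / 2)) = X ^ 2 -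
        C ((u + w) / 2 + (u - w) / 2) * X + C ((u + w) / 2 * ((u - w) / 2)) := by
        simp only [map_add, map_mul]
        ring
      rw [this, e1, e2]
      rfl
    rw [e, mul_assoc]
    exact (h.lin _).lin _

theorem good_of_monic : ∀ (n : ℕ) (f : ℝ[X]), IsMonicOfDegree f n → Good n f := by
  intro n
  induction n using Nat.strong_induction_on with
  | _ n ih =>
    intro f hf
    rcases n with _ | _ | n
    · rw [isMonicOfDegree_zero_iff] at hf
      rw [hf]
      exact good_one
    · obtain ⟨r, rfl⟩ := exists_lin hf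
      have := good_one.lin r
      rwa [mul_one] at this
    · obtain ⟨f₁, f₂, h1, h2, rfl⟩ := hf.eq_isMonicOfDegree_two_mul_isMonicOfDegree
      obtain ⟨u, v, rfl⟩ := exists_quad h1
      exact (ih n (by omega) f₂ h2).quad u v

theorem QP_monic (L : List (ℝ × ℝ)) : IsMonicOfDegree (QP L) (2 * L.length) := by
  induction L with
  | nil => simp [QP]
  | cons x L ih =>
    rw [QP_cons]
    have := (quad_monic x.1 x.2).mul ih
    rw [List.length_cons]
    have e : 2 * (L.length + 1) = 2 + 2 * L.length := by ring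
    rw [e]
    exact this

/-- Every monic real polynomial of degree twenty has a factor of degree six which is attained by
the pattern `z6`. -/
theorem exists_factor {f : ℝ[X]} (hf : IsMonicOfDegree f 20) :
    ∃ g h : ℝ[X], Real6 g ∧ IsMonicOfDegree h 14 ∧ f = g * h := by
  obtain ⟨i, j, k, α, β, L₀, L₁, L₂, hi, hj, hα, hβ, h0, h1, h2, hn, rfl⟩ := good_of_monic 20 f hf
  have key : ∀ g h : ℝ[X], Real6 g → IsMonicOfDegree g 6 →
      (X - C α) ^ i * (X + C β) ^ j * X ^ k * QP L₀ * QP L₁ * QP L₂ = g * h →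
      ∃ g h : ℝ[X], Real6 g ∧ IsMonicOfDegree h 14 ∧
        (X - C α) ^ i * (X + C β) ^ j * X ^ k * QP L₀ * QP L₁ * QP L₂ = g * h := by
    intro g h hg hg6 e
    refine ⟨g, h, hg, ?_, e⟩
    rw [e] at hf
    exact IsMonicOfDegree.of_mul_left hg6 hf
  have q3 : ∀ x y z : ℝ × ℝ, IsMonicOfDegree (quad x.1 x.2 * quad y.1 y.2 * quad z.1 z.2) 6 :=
    fun x y z => ((quad_monic _ _).mul (quad_monic _ _)).mul (quad_monic _ _)
  by_cases hL0 : 3 ≤ L₀.length
  · obtain ⟨x, y, z, L, rfl⟩ : ∃ x y z L, L₀ = x :: y :: z :: L := by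
      rcases L₀ with _ | ⟨x, _ | ⟨y, _ | ⟨z, L⟩⟩⟩
      · simp at hL0
      · simp at hL0
      · simp at hL0
      · exact ⟨x, y, z, L, rfl⟩
    have hx := h0 x (by simp)
    have hy := h0 y (by simp)
    have hz := h0 z (by simp)
    refine key (quad x.1 x.2 * quad y.1 y.2 * quad z.1 z.2)
      ((X - C α) ^ i * (X + C β) ^ j * X ^ k * QP L * QP L₁ * QP L₂)
      (real6_pos hx.1 hy.1 hz.1 hx.2 hy.2 hz.2) (q3 x y z) ?_
    rw [QP_cons, QP_cons, QP_cons]
    ring
  by_cases hL1 : 3 ≤ L₁.length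
  · obtain ⟨x, y, z, L, rfl⟩ : ∃ x y z L, L₁ = x :: y :: z :: L := by
      rcases L₁ with _ | ⟨x, _ | ⟨y, _ | ⟨z, L⟩⟩⟩
      · simp at hL1
      · simp at hL1
      · simp at hL1
      · exact ⟨x, y, z, L, rfl⟩
    have hx := h1 x (by simp)
    have hy := h1 y (by simp)
    have hz := h1 z (by simp)
    refine key (quad x.1 x.2 * quad y.1 y.2 * quad z.1 z.2)
      ((X - C α) ^ i * (X + C β) ^ j * X ^ k * QP L₀ * QP L * QP L₂)
      (real6_neg hx.1 hy.1 hz.1 hx.2 hy.2 hz.2) (q3 x y z) ?_
    rw [QP_cons, QP_cons, QP_cons]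
    ring
  by_cases hL2 : 3 ≤ L₂.length
  · obtain ⟨x, y, z, L, rfl⟩ : ∃ x y z L, L₂ = x :: y :: z :: L := by
      rcases L₂ with _ | ⟨x, _ | ⟨y, _ | ⟨z, L⟩⟩⟩
      · simp at hL2
      · simp at hL2
      · simp at hL2
      · exact ⟨x, y, z, L, rfl⟩
    have hx := h2 x (by simp)
    have hy := h2 y (by simp)
    have hz := h2 z (by simp)
    refine key (quad x.1 x.2 * quad y.1 y.2 * quad z.1 z.2)
      ((X - C α) ^ i * (X + C β) ^ j * X ^ k * QP L₀ * QP L₁ * QP L) ?_ (q3 x y z) ?_
    · rw [hx.1, hy.1, hz.1]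
      exact real6_zero hx.2 hy.2 hz.2
    · rw [QP_cons, QP_cons, QP_cons]
      ring
  · obtain ⟨k', rfl⟩ : ∃ k', k = 6 + k' := ⟨k - 6, by omega⟩
    refine key (X ^ 6) ((X - C α) ^ i * (X + C β) ^ j * X ^ k' * QP L₀ * QP L₁ * QP L₂)
      real6_nil ?_ ?_
    · exact ⟨by simp, monic_X_pow 6⟩
    · rw [pow_add]
      ring

/-- Every monic real polynomial of even degree is a product of monic quadratics. -/
theorem exists_quads : ∀ (m : ℕ) (h : ℝ[X]), IsMonicOfDegree h (2 * m) →
    ∃ u v : Fin m → ℝ, h = ∏ k, quad (u k) (v k) := by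
  intro m
  induction m with
  | zero =>
    intro h hh
    rw [mul_zero, isMonicOfDegree_zero_iff] at hh
    exact ⟨Fin.elim0, Fin.elim0, by simp [hh]⟩
  | succ m ih =>
    intro h hh
    have e : 2 * (m + 1) = 2 * m + 2 := by ring
    rw [e] at hh
    obtain ⟨f₁, f₂, h1, h2, rfl⟩ := hh.eq_isMonicOfDegree_two_mul_isMonicOfDegree
    obtain ⟨u₀, v₀, rfl⟩ := exists_quad h1
    obtain ⟨u, v, rfl⟩ := ih f₂ h2
    refine ⟨Fin.cons u₀ u, Fin.cons v₀ v, ?_⟩
    rw [Fin.prod_univ_succ]
    simp

/-- Every monic quadratic is the characteristic polynomial of a matrix of order two without zero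
entries. -/
theorem exists_two (u v : ℝ) : ∃ B : Matrix (Fin 2) (Fin 2) ℝ, (∀ i j, B i j ≠ 0) ∧
    B.charpoly = quad u v := by
  set a := 1 + |u| + |v| + u ^ 2 with ha
  have hau : |u| < a := by
    have := abs_nonneg v
    have := sq_nonneg u
    linarith
  have ha0 : 0 < a := lt_of_le_of_lt (abs_nonneg u) hau
  have h1 : 0 < a - u := by
    have := le_abs_self u
    linarith
  have h2 : a * (u - a) - v < 0 := by
    have h3 : 1 + |v| ≤ a - u := by
      have : u ≤ |u| := le_abs_self u
      have := sq_nonneg u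
      linarith
    have h4 : 1 ≤ a := by
      have := abs_nonneg v
      have := abs_nonneg u
      have := sq_nonneg u
      linarith
    have h5 : (1 + |v|) * 1 ≤ (a - u) * a := mul_le_mul h3 h4 (by norm_num) h1.le
    have h6 : -v ≤ |v| := neg_le_abs v
    nlinarith
  refine ⟨!![a, 1; a * (u - a) - v, u - a], ?_, ?_⟩
  · intro i j
    fin_cases i <;> fin_cases j
    · simpa using ha0.ne'
    · simp
    · simpa using h2.ne
    · simp only [Fin.mk_one, Fin.isValue, of_apply, cons_val', cons_val_one, cons_val_fin_one]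
      intro h
      linarith
  · rw [Matrix.charpoly_fin_two]
    simp only [Matrix.trace_fin_two_of, Matrix.det_fin_two_of, quad]
    congr 2
    · congr 3
      ring
    · ring

theorem charpoly_blockDiagonal {m : ℕ} (B : Fin m → Matrix (Fin 2) (Fin 2) ℝ) :
    (Matrix.blockDiagonal B).charpoly = ∏ k, (B k).charpoly := by
  have h : charmatrix (Matrix.blockDiagonal B) = Matrix.blockDiagonal (fun k => charmatrix (B k)) := by
    ext ⟨a, k⟩ ⟨b, l⟩
    by_cases hkl : k = l
    · subst hkl
      by_cases hab : a = b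
      · subst hab
        simp [Matrix.blockDiagonal_apply]
      · have : (a, k) ≠ (b, k) := fun h => hab (Prod.mk.inj h).1
        rw [charmatrix_apply_ne _ _ _ this, Matrix.blockDiagonal_apply, Matrix.blockDiagonal_apply,
          if_pos rfl, if_pos rfl, charmatrix_apply_ne _ _ _ hab]
    · have : (a, k) ≠ (b, l) := fun h => hkl (Prod.mk.inj h).2
      rw [charmatrix_apply_ne _ _ _ this, Matrix.blockDiagonal_apply, Matrix.blockDiagonal_apply,
        if_neg hkl, if_neg hkl]
      simp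
  rw [Matrix.charpoly, h, Matrix.det_blockDiagonal]
  rfl

end Pool.Agent.H228R3.Sap
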