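import Mathlib

set_option autoImplicit false

namespace Pool.Agent.H228R3.SigmaThree

open Finset Classical

variable {n : ℕ}

/-- the shadow relation of a 3-graph -/
def Sh (H : Finset (Finset (Fin n))) (x y : Fin n) : Prop := x ≠ y ∧ ∃ e ∈ H, x ∈ e ∧ y ∈ e

lemma Sh.symm {H : Finset (Finset (Fin n))} {x y : Fin n} (h : Sh H x y) : Sh H y x := by
  obtain ⟨h1, e, he, hx, hy⟩ := h
  exact ⟨h1.symm, e, he, hy, hx⟩

/-- ordered shadow pairs -/
noncomputable def shp (H : Finset (Finset (Fin n))) : Finset (Fin n × Fin n) :=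
  univ.filter (fun p => Sh H p.1 p.2)

lemma shp_card (H : Finset (Finset (Fin n))) : (shp H).card ≤ n ^ 2 := by
  have h := Finset.card_le_univ (shp H)
  simpa [Fintype.card_prod, sq] using h

lemma clean (H : Finset (Finset (Fin n))) (D : ℕ) :
    ∃ H' ⊆ H, H.card ≤ H'.card + D * n ^ 2 ∧
      ∀ x y, Sh H' x y → D ≤ (H'.filter (fun e => x ∈ e ∧ y ∈ e)).card := by
  obtain ⟨H', hmem, hmax⟩ := Finset.exists_max_image H.powerset
    (fun K => (K.card : ℤ) - D * (shp K).card) ⟨H, mem_powerset_self H⟩
  refine ⟨H', mem_powerset.mp hmem, ?_, ?_⟩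
  · have h1 := hmax H (mem_powerset_self H)
    have h2 := shp_card H
    have h3 : (H.card : ℤ) ≤ H'.card + D * n ^ 2 := by
      have h4 : ((shp H).card : ℤ) ≤ n ^ 2 := by exact_mod_cast h2
      have h5 : (D : ℤ) * (shp H).card ≤ D * n ^ 2 := by
        apply mul_le_mul_of_nonneg_left h4 (by positivity)
      have h6 : (0 : ℤ) ≤ D * (shp H').card := by positivity
      linarith
    exact_mod_cast h3
  · intro x y hxy
    by_contra hlt
    push Not at hlt
    set K := H'.filter (fun e => ¬ (x ∈ e ∧ y ∈ e)) with hK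
    have hKH : K ∈ H.powerset := by
      rw [mem_powerset]
      exact (filter_subset _ _).trans (mem_powerset.mp hmem)
    have h1 := hmax K hKH
    have h2 : (H'.filter (fun e => x ∈ e ∧ y ∈ e)).card + K.card = H'.card :=
      Finset.card_filter_add_card_filter_not (s := H') (fun e => x ∈ e ∧ y ∈ e)
    have h3 : shp K ⊆ (shp H').erase (x, y) := by
      intro p hp
      simp only [shp, mem_filter, mem_univ, true_and] at hp
      obtain ⟨hne, e, he, hpe1, hpe2⟩ := hp
      rw [hK, mem_filter] at he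
      rw [mem_erase]
      refine ⟨?_, ?_⟩
      · rintro rfl
        exact he.2 ⟨hpe1, hpe2⟩
      · simp only [shp, mem_filter, mem_univ, true_and]
        exact ⟨hne, e, he.1, hpe1, hpe2⟩
    have h4 : (x, y) ∈ shp H' := by
      simp only [shp, mem_filter, mem_univ, true_and]
      exact hxy
    have h5 : (shp K).card + 1 ≤ (shp H').card := by
      have h6 := card_le_card h3
      rw [card_erase_of_mem h4] at h6
      have h7 : 0 < (shp H').card := card_pos.mpr ⟨_, h4⟩
      omega
    have h8 : (D : ℤ) * ((shp K).card + 1) ≤ D * (shp H').card := by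
      apply mul_le_mul_of_nonneg_left _ (by positivity)
      exact_mod_cast h5
    have h9 : (H'.card : ℤ) < K.card + D := by
      have : H'.card < K.card + D := by omega
      exact_mod_cast this
    linarith

lemma third {H : Finset (Finset (Fin n))} (h3 : ∀ e ∈ H, e.card = 3) {x y : Fin n} (hxy : x ≠ y) :
    (H.filter (fun e => x ∈ e ∧ y ∈ e)).card ≤
      (univ.filter (fun w : Fin n => w ≠ x ∧ w ≠ y ∧ ({x, y, w} : Finset (Fin n)) ∈ H)).card := by
  have : H.filter (fun e => x ∈ e ∧ y ∈ e) ⊆
      (univ.filter (fun w : Fin n => w ≠ x ∧ w ≠ y ∧ ({x, y, w} : Finset (Fin n)) ∈ H)).image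
        (fun w => ({x, y, w} : Finset (Fin n))) := by
    intro e he
    rw [mem_filter] at he
    obtain ⟨heH, hx, hy⟩ := he
    have hc := h3 e heH
    have hy' : y ∈ e.erase x := mem_erase.mpr ⟨hxy.symm, hy⟩
    have h1 : ((e.erase x).erase y).card = 1 := by
      rw [card_erase_of_mem hy', card_erase_of_mem hx, hc]
    obtain ⟨w, hw⟩ := card_eq_one.mp h1
    have hwm : w ∈ (e.erase x).erase y := by rw [hw]; exact mem_singleton_self w
    rw [mem_erase, mem_erase] at hwm
    have he2 : ({x, y, w} : Finset (Fin n)) = e := by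
      apply Finset.eq_of_subset_of_card_le
      · intro z hz
        simp only [mem_insert, mem_singleton] at hz
        rcases hz with rfl | rfl | rfl
        · exact hx
        · exact hy
        · exact hwm.2.2
      · rw [hc]
        rw [Finset.card_eq_three.mpr ⟨x, y, w, hxy, hwm.2.1.symm, hwm.1.symm, rfl⟩]
    rw [mem_image]
    refine ⟨w, ?_, he2⟩
    rw [mem_filter]
    refine ⟨mem_univ _, hwm.2.1, hwm.1, ?_⟩
    rw [he2]; exact heH
  exact (card_le_card this).trans card_image_le

/-- common neighbours in the shadow -/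
noncomputable def cn (H : Finset (Finset (Fin n))) (x y : Fin n) : Finset (Fin n) :=
  univ.filter (fun w => Sh H x w ∧ Sh H y w)

lemma third_sub_cn {H : Finset (Finset (Fin n))} {x y : Fin n} :
    (univ.filter (fun w : Fin n => w ≠ x ∧ w ≠ y ∧ ({x, y, w} : Finset (Fin n)) ∈ H)) ⊆ cn H x y := by
  intro w hw
  rw [mem_filter] at hw
  obtain ⟨-, h1, h2, h3⟩ := hw
  rw [cn, mem_filter]
  refine ⟨mem_univ _, ⟨h1.symm, _, h3, by simp, by simp⟩, ⟨h2.symm, _, h3, by simp, by simp⟩⟩

lemma embed {V : Type} [Fintype V] (G : SimpleGraph V) {H : Finset (Finset (Fin n))}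
    (h3 : ∀ e ∈ H, e.card = 3)
    (hD : ∀ x y, Sh H x y → Fintype.card V + Fintype.card G.edgeSet ≤
      (H.filter (fun e => x ∈ e ∧ y ∈ e)).card)
    (f : V → Fin n) (hadj : ∀ u v, G.Adj u v → Sh H (f u) (f v)) :
    ∃ g : G.edgeSet → Fin n, Function.Injective g ∧
            (∀ (e : G.edgeSet) (x : V), g e ≠ f x) ∧
            ∀ (u v : V) (h : G.Adj u v),
              ({f u, f v, g ⟨s(u, v), (SimpleGraph.mem_edgeSet G).mpr h⟩} : Finset (Fin n)) ∈ H := by
  set A : G.edgeSet → Finset (Fin n) := fun e => univ.filter (fun w =>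
    (∀ x, w ≠ f x) ∧ ∃ u v, (e : Sym2 V) = s(u, v) ∧ ({f u, f v, w} : Finset (Fin n)) ∈ H) with hA
  have hAcard : ∀ e, Fintype.card G.edgeSet ≤ (A e).card := by
    rintro ⟨e, he⟩
    induction e using Sym2.ind with
    | _ u v =>
      have huv : G.Adj u v := (SimpleGraph.mem_edgeSet G).mp he
      have hs := hadj u v huv
      have h1 := (hD _ _ hs).trans (third h3 hs.1)
      have h2 : (univ.filter (fun w : Fin n => w ≠ f u ∧ w ≠ f v ∧
          ({f u, f v, w} : Finset (Fin n)) ∈ H)) \ (univ.image f) ⊆ A ⟨s(u, v), he⟩ := by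
        intro w hw
        rw [mem_sdiff, mem_filter, mem_image] at hw
        rw [hA]
        simp only [mem_filter, mem_univ, true_and]
        refine ⟨?_, u, v, rfl, hw.1.2.2.2⟩
        intro x hx
        exact hw.2 ⟨x, mem_univ _, hx.symm⟩
      have h4 := card_le_card h2
      have h5 := le_card_sdiff (univ.image f) (univ.filter (fun w : Fin n => w ≠ f u ∧ w ≠ f v ∧
          ({f u, f v, w} : Finset (Fin n)) ∈ H))
      have h6 : (univ.image f).card ≤ Fintype.card V := by
        refine card_image_le.trans ?_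
        simp
      omega
  obtain ⟨g, hg1, hg2⟩ := (Finset.all_card_le_biUnion_card_iff_exists_injective A).mp (by
    intro s
    rcases s.eq_empty_or_nonempty with rfl | ⟨e, he⟩
    · simp
    · calc s.card ≤ Fintype.card G.edgeSet := card_le_univ s
        _ ≤ (A e).card := hAcard e
        _ ≤ _ := card_le_card (subset_biUnion_of_mem A he))
  refine ⟨g, hg1, ?_, ?_⟩
  · intro e x
    have := hg2 e
    rw [hA] at this
    simp only [mem_filter, mem_univ, true_and] at this
    exact this.1 x
  · intro u v h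
    have := hg2 ⟨s(u, v), (SimpleGraph.mem_edgeSet G).mpr h⟩
    rw [hA] at this
    simp only [mem_filter, mem_univ, true_and] at this
    obtain ⟨-, u', v', he, hm⟩ := this
    rw [Sym2.eq_iff] at he
    rcases he with ⟨rfl, rfl⟩ | ⟨rfl, rfl⟩
    · exact hm
    · rw [Finset.insert_comm]; exact hm

/-- extension of a partial injection -/
lemma extend {V : Type} [Fintype V] (S : Finset V) (f0 : V → Fin n) (hinj : Set.InjOn f0 S)
    (A : Finset (Fin n)) (hA : Fintype.card V ≤ A.card) :
    ∃ f : V → Fin n, Function.Injective f ∧ (∀ v ∈ S, f v = f0 v) ∧ ∀ v, v ∉ S → f v ∈ A := by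
  have hcard : Fintype.card {v // v ∉ S} ≤ Fintype.card {x // x ∈ A \ S.image f0} := by
    rw [Fintype.card_coe]
    have h1 : Fintype.card {v // v ∉ S} = Fintype.card V - S.card := by
      rw [Fintype.card_subtype_compl]; simp
    have h2 := le_card_sdiff (S.image f0) A
    have h3 : (S.image f0).card ≤ S.card := card_image_le
    have h4 : S.card ≤ Fintype.card V := card_le_univ S
    omega
  obtain ⟨φ⟩ := Function.Embedding.nonempty_of_card_le hcard
  have hφ : ∀ v, (φ v : Fin n) ∈ A ∧ (φ v : Fin n) ∉ S.image f0 := fun v => mem_sdiff.mp (φ v).2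
  refine ⟨fun v => if h : v ∈ S then f0 v else φ ⟨v, h⟩, ?_, ?_, ?_⟩
  · intro a b hab
    simp only at hab
    by_cases ha : a ∈ S <;> by_cases hb : b ∈ S
    · rw [dif_pos ha, dif_pos hb] at hab
      exact hinj ha hb hab
    · rw [dif_pos ha, dif_neg hb] at hab
      exact absurd (mem_image.mpr ⟨a, ha, hab⟩) (hφ ⟨b, hb⟩).2
    · rw [dif_neg ha, dif_pos hb] at hab
      exact absurd (mem_image.mpr ⟨b, hb, hab.symm⟩) (hφ ⟨a, ha⟩).2
    · rw [dif_neg ha, dif_neg hb] at hab
      have := φ.injective (Subtype.ext hab)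
      exact congrArg Subtype.val this
  · intro v hv
    simp only [dif_pos hv]
  · intro v hv
    simp only [dif_neg hv]
    exact (hφ ⟨v, hv⟩).1

/-- ordered triangles of the shadow -/
noncomputable def T (H : Finset (Finset (Fin n))) : Finset (Fin n × Fin n × Fin n) :=
  univ.filter (fun p => Sh H p.1 p.2.1 ∧ Sh H p.1 p.2.2 ∧ Sh H p.2.1 p.2.2)

lemma card_le_T {H : Finset (Finset (Fin n))} (h3 : ∀ e ∈ H, e.card = 3) : H.card ≤ (T H).card := by
  have : H ⊆ (T H).image (fun p => ({p.1, p.2.1, p.2.2} : Finset (Fin n))) := by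
    intro e he
    obtain ⟨x, y, z, hxy, hxz, hyz, rfl⟩ := card_eq_three.mp (h3 e he)
    rw [mem_image]
    refine ⟨(x, y, z), ?_, rfl⟩
    simp only [T, mem_filter, mem_univ, true_and]
    refine ⟨⟨hxy, _, he, by simp, by simp⟩, ⟨hxz, _, he, by simp, by simp⟩,
      ⟨hyz, _, he, by simp, by simp⟩⟩
  exact (card_le_card this).trans card_image_le


/-- neighbourhood in the shadow -/
noncomputable def N (H : Finset (Finset (Fin n))) (v : Fin n) : Finset (Fin n) := univ.filter (Sh H v)

lemma mem_N {H : Finset (Finset (Fin n))} {v x : Fin n} : x ∈ N H v ↔ Sh H v x := by simp [N]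

lemma mem_cn {H : Finset (Finset (Fin n))} {v x y : Fin n} : y ∈ cn H v x ↔ Sh H v y ∧ Sh H x y := by
  simp [cn]

lemma T_le (H : Finset (Finset (Fin n))) : (T H).card ≤ ∑ v, ∑ x ∈ N H v, (cn H v x).card := by
  have : T H ⊆ univ.biUnion (fun v => (N H v).biUnion (fun x => (cn H v x).image (fun y => (v, x, y)))) := by
    rintro ⟨v, x, y⟩ hp
    simp only [T, mem_filter, mem_univ, true_and] at hp
    simp only [mem_biUnion, mem_univ, true_and, mem_image]
    exact ⟨v, x, mem_N.mpr hp.1, y, mem_cn.mpr ⟨hp.2.1, hp.2.2⟩, rfl⟩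
  refine (card_le_card this).trans (card_biUnion_le.trans (sum_le_sum fun v _ => ?_))
  exact card_biUnion_le.trans (sum_le_sum fun x _ => card_image_le)

lemma case3 (H : Finset (Finset (Fin n))) (t : ℕ)
    (h : ∀ x y z : Fin n, x ≠ y → x ≠ z → y ≠ z →
      (univ.filter (fun w => Sh H x w ∧ Sh H y w ∧ Sh H z w)).card ≤ t) :
    (T H).card ≤ (t + 3) * n ^ 2 := by
  refine (T_le H).trans ?_
  -- sum of squares of codegrees at v
  have h2 : ∀ v, ∑ x ∈ N H v, (cn H v x).card ^ 2 ≤ (t + 1) * (N H v).card ^ 2 := by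
    intro v
    have h21 : ∀ x ∈ N H v, (cn H v x).card ^ 2 ≤
        ∑ p ∈ N H v ×ˢ N H v, if Sh H x p.1 ∧ Sh H x p.2 then 1 else 0 := by
      intro x _
      rw [sq, ← card_product, ← card_filter]
      apply card_le_card
      rintro ⟨y, z⟩ hp
      rw [mem_product] at hp
      rw [mem_filter, mem_product]
      have h1 := mem_cn.mp hp.1
      have h2 := mem_cn.mp hp.2
      exact ⟨⟨mem_N.mpr h1.1, mem_N.mpr h2.1⟩, h1.2, h2.2⟩
    refine (sum_le_sum h21).trans ?_
    rw [sum_comm]
    have h22 : ∀ p ∈ N H v ×ˢ N H v, (∑ x ∈ N H v, if Sh H x p.1 ∧ Sh H x p.2 then 1 else 0) ≤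
        t + if p.1 = p.2 then (N H v).card else 0 := by
      rintro ⟨y, z⟩ hp
      rw [mem_product] at hp
      have hy := mem_N.mp hp.1
      have hz := mem_N.mp hp.2
      simp only at hy hz ⊢
      rw [← card_filter]
      by_cases hyz : y = z
      · rw [if_pos hyz]
        exact (card_filter_le _ _).trans (Nat.le_add_left _ _)
      · rw [if_neg hyz, add_zero]
        refine le_trans (card_le_card ?_) (h v y z hy.1 hz.1 hyz)
        intro x hx
        rw [mem_filter] at hx ⊢
        exact ⟨mem_univ _, mem_N.mp hx.1, hx.2.1.symm, hx.2.2.symm⟩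
    refine (sum_le_sum h22).trans ?_
    rw [sum_add_distrib, sum_const, card_product, smul_eq_mul, sum_product]
    have h23 : ∀ x ∈ N H v, (∑ y ∈ N H v, if x = y then (N H v).card else 0) = (N H v).card := by
      intro x hx
      rw [sum_ite_eq, if_pos hx]
    rw [sum_congr rfl h23, sum_const, smul_eq_mul]
    apply le_of_eq; ring
  -- tcount
  have h3 : ∀ v, (∑ x ∈ N H v, (cn H v x).card) ^ 2 ≤ (t + 1) * (N H v).card ^ 3 := by
    intro v
    calc (∑ x ∈ N H v, (cn H v x).card) ^ 2 ≤ (N H v).card * ∑ x ∈ N H v, (cn H v x).card ^ 2 :=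
          sq_sum_le_card_mul_sum_sq
      _ ≤ (N H v).card * ((t + 1) * (N H v).card ^ 2) := Nat.mul_le_mul_left _ (h2 v)
      _ = (t + 1) * (N H v).card ^ 3 := by ring
  -- cubes of degrees
  have h4 : ∑ v, (N H v).card ^ 3 ≤ (t + 3) * n ^ 3 := by
    have h41 : ∀ v ∈ (univ : Finset (Fin n)), (N H v).card ^ 3 ≤
        ∑ p : Fin n × Fin n × Fin n, if Sh H v p.1 ∧ Sh H v p.2.1 ∧ Sh H v p.2.2 then 1 else 0 := by
      intro v _
      have : (N H v).card ^ 3 = (N H v ×ˢ (N H v ×ˢ N H v)).card := by
        rw [card_product, card_product]; ring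
      rw [this, ← card_filter]
      apply card_le_card
      rintro ⟨x, y, z⟩ hp
      rw [mem_product, mem_product] at hp
      rw [mem_filter]
      exact ⟨mem_univ _, mem_N.mp hp.1, mem_N.mp hp.2.1, mem_N.mp hp.2.2⟩
    refine (sum_le_sum h41).trans ?_
    rw [sum_comm]
    have h42 : ∀ p ∈ (univ : Finset (Fin n × Fin n × Fin n)),
        (∑ v, if Sh H v p.1 ∧ Sh H v p.2.1 ∧ Sh H v p.2.2 then 1 else 0) ≤
        t + ((if p.1 = p.2.1 then n else 0) + (if p.1 = p.2.2 then n else 0) +
          (if p.2.1 = p.2.2 then n else 0)) := by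
      rintro ⟨x, y, z⟩ -
      simp only
      rw [← card_filter]
      have hle : (univ.filter (fun v => Sh H v x ∧ Sh H v y ∧ Sh H v z)).card ≤ n := by
        have := card_le_univ (univ.filter (fun v => Sh H v x ∧ Sh H v y ∧ Sh H v z))
        simpa using this
      by_cases hxy : x = y
      · rw [if_pos hxy]; omega
      · by_cases hxz : x = z
        · rw [if_pos hxz]; omega
        · by_cases hyz : y = z
          · rw [if_pos hyz]; omega
          · rw [if_neg hxy, if_neg hxz, if_neg hyz]
            refine le_trans (card_le_card ?_) (h x y z hxy hxz hyz)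
            intro w hw
            rw [mem_filter] at hw ⊢
            exact ⟨mem_univ _, hw.2.1.symm, hw.2.2.1.symm, hw.2.2.2.symm⟩
    refine (sum_le_sum h42).trans ?_
    rw [sum_add_distrib, sum_add_distrib, sum_add_distrib]
    simp only [Fintype.sum_prod_type, sum_const, card_univ, Fintype.card_prod, Fintype.card_fin,
      smul_eq_mul, sum_ite_eq, mem_univ, if_true]
    have h43 : (∑ x : Fin n, ∑ x_1 : Fin n, ∑ _x_2 : Fin n, if x = x_1 then n else 0) = n * (n * n) := by
      have : ∀ x ∈ (univ : Finset (Fin n)),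
          (∑ x_1 : Fin n, ∑ _x_2 : Fin n, if x = x_1 then n else 0) = n * n := by
        intro x _
        rw [sum_comm]
        simp
      rw [sum_congr rfl this]
      simp
    rw [h43]
    apply le_of_eq
    ring
  have h5 : (∑ v, ∑ x ∈ N H v, (cn H v x).card) ^ 2 ≤ ((t + 3) * n ^ 2) ^ 2 := by
    calc (∑ v, ∑ x ∈ N H v, (cn H v x).card) ^ 2
        ≤ (univ : Finset (Fin n)).card * ∑ v, (∑ x ∈ N H v, (cn H v x).card) ^ 2 :=
          sq_sum_le_card_mul_sum_sq
      _ ≤ n * ∑ v, ((t + 1) * (N H v).card ^ 3) := by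
          rw [card_univ, Fintype.card_fin]
          exact Nat.mul_le_mul_left _ (sum_le_sum fun v _ => h3 v)
      _ = n * ((t + 1) * ∑ v, (N H v).card ^ 3) := by rw [← mul_sum]
      _ ≤ n * ((t + 1) * ((t + 3) * n ^ 3)) := by gcongr
      _ ≤ n * ((t + 3) * ((t + 3) * n ^ 3)) := by gcongr; omega
      _ = ((t + 3) * n ^ 2) ^ 2 := by ring
  exact (Nat.pow_le_pow_iff_left (by norm_num)).mp h5

lemma case2 (H : Finset (Finset (Fin n))) (t : ℕ)
    (h : ∀ v c : Fin n, Sh H v c → ∀ p q : Fin n, p ≠ q → p ∈ cn H v c → q ∈ cn H v c →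
      (cn H p q).card ≤ t) :
    (T H).card ≤ (t ^ 2 + 1) * n ^ 2 := by
  refine (T_le H).trans ?_
  have h1 : ∀ v, ∀ x ∈ N H v, (cn H v x).card ≤ 1 + ∑ p : Fin n × Fin n,
      if p.1 ≠ p.2 ∧ p.1 ∈ cn H v x ∧ p.2 ∈ cn H v x then 1 else 0 := by
    intro v x _
    rw [← card_filter]
    have : (univ.filter (fun p : Fin n × Fin n => p.1 ≠ p.2 ∧ p.1 ∈ cn H v x ∧ p.2 ∈ cn H v x)) =
        (cn H v x).offDiag := by
      ext ⟨p, q⟩
      simp only [mem_filter, mem_univ, true_and, mem_offDiag]
      tauto
    rw [this, offDiag_card]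
    generalize (cn H v x).card = k
    rcases k with _ | k
    · omega
    · have : (k + 1) * (k + 1) - (k + 1) = k * (k + 1) := by
        rw [add_mul, one_mul, Nat.add_sub_cancel]
      rw [this]; nlinarith
  have h2 : ∑ v, ∑ x ∈ N H v, (cn H v x).card ≤ ∑ v, ∑ x ∈ N H v, (1 + ∑ p : Fin n × Fin n,
      if p.1 ≠ p.2 ∧ p.1 ∈ cn H v x ∧ p.2 ∈ cn H v x then 1 else 0) :=
    sum_le_sum fun v _ => sum_le_sum (h1 v)
  refine h2.trans ?_
  have h3 : ∑ v, ∑ x ∈ N H v, (1 + ∑ p : Fin n × Fin n,
      if p.1 ≠ p.2 ∧ p.1 ∈ cn H v x ∧ p.2 ∈ cn H v x then 1 else 0) ≤ n ^ 2 +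
      ∑ p : Fin n × Fin n, ∑ v, ∑ x ∈ N H v,
        if p.1 ≠ p.2 ∧ p.1 ∈ cn H v x ∧ p.2 ∈ cn H v x then 1 else 0 := by
    simp_rw [sum_add_distrib]
    apply add_le_add
    · calc ∑ v, ∑ x ∈ N H v, 1 ≤ ∑ v : Fin n, n := by
            apply sum_le_sum
            intro v _
            rw [sum_const, smul_eq_mul, mul_one]
            have := card_le_univ (N H v)
            simpa using this
        _ = n ^ 2 := by simp [sq]
    · apply le_of_eq
      rw [sum_comm]
      apply sum_congr rfl
      intro v _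
      rw [sum_comm]
  refine h3.trans ?_
  have h4 : ∀ p ∈ (univ : Finset (Fin n × Fin n)), (∑ v, ∑ x ∈ N H v,
        if p.1 ≠ p.2 ∧ p.1 ∈ cn H v x ∧ p.2 ∈ cn H v x then 1 else 0) ≤ t ^ 2 := by
    rintro ⟨p, q⟩ -
    simp only
    by_cases hex : ∃ v x, x ∈ N H v ∧ p ≠ q ∧ p ∈ cn H v x ∧ q ∈ cn H v x
    · obtain ⟨v0, x0, hx0, hpq, hp0, hq0⟩ := hex
      have hc := h v0 x0 (mem_N.mp hx0) p q hpq hp0 hq0
      calc (∑ v, ∑ x ∈ N H v, if p ≠ q ∧ p ∈ cn H v x ∧ q ∈ cn H v x then 1 else 0)
          ≤ ∑ v, ∑ x, (if v ∈ cn H p q ∧ x ∈ cn H p q then 1 else 0) := by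
            apply sum_le_sum
            intro v _
            refine (sum_le_sum ?_).trans (sum_le_sum_of_subset (subset_univ (N H v)))
            intro x _
            split_ifs with h1 h2 h2
            · exact le_refl _
            · exfalso
              apply h2
              have hp := mem_cn.mp h1.2.1
              have hq := mem_cn.mp h1.2.2
              exact ⟨mem_cn.mpr ⟨hp.1.symm, hq.1.symm⟩, mem_cn.mpr ⟨hp.2.symm, hq.2.symm⟩⟩
            · exact Nat.zero_le _
            · exact le_refl _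
        _ = (cn H p q).card * (cn H p q).card := by
            rw [← Fintype.sum_prod_type']
            rw [← card_filter, ← card_product]
            congr 1
            ext ⟨a, b⟩
            simp
        _ ≤ t ^ 2 := by rw [sq]; exact Nat.mul_le_mul hc hc
    · have : ∀ v, ∀ x ∈ N H v, (if p ≠ q ∧ p ∈ cn H v x ∧ q ∈ cn H v x then 1 else 0) = 0 := by
        intro v x hx
        rw [if_neg]
        intro hh
        exact hex ⟨v, x, hx, hh⟩
      rw [sum_congr rfl (fun v _ => sum_congr rfl (this v))]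
      simp
  refine (Nat.add_le_add_left (sum_le_sum h4) _).trans ?_
  rw [sum_const, card_univ, Fintype.card_prod, Fintype.card_fin, smul_eq_mul]
  apply le_of_eq; ring


/-- embedding when one vertex dominates all but a near-trivial remainder -/
lemma case1 {V : Type} [Fintype V] (G : SimpleGraph V) (H : Finset (Finset (Fin n)))
    (hcn : ∀ x y, Sh H x y → Fintype.card V ≤ (cn H x y).card) (x0 y0 : Fin n) (hxy : Sh H x0 y0)
    (v0 p : V)
    (hp : ∀ w, w ≠ v0 → w ≠ p → ∀ x y, G.Adj w x → G.Adj w y → x ≠ v0 → y ≠ v0 → x = y) :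
    ∃ f : V → Fin n, Function.Injective f ∧ ∀ u v, G.Adj u v → Sh H (f u) (f v) := by
  -- every neighbour set is large
  have hN : ∀ x y, Sh H x y → Fintype.card V ≤ (N H x).card := by
    intro x y h
    refine (hcn x y h).trans (card_le_card ?_)
    intro z hz
    exact mem_N.mpr (mem_cn.mp hz).1
  -- invariant
  let Good : Finset V → Prop := fun S => ∃ f : V → Fin n, Set.InjOn f S ∧ f v0 = x0 ∧
    (∀ u ∈ S, u ≠ v0 → Sh H x0 (f u)) ∧ (∀ u ∈ S, ∀ v ∈ S, G.Adj u v → Sh H (f u) (f v))
  have step : ∀ (S : Finset V) (w : V), v0 ∈ S → w ∉ S →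
      (∀ x ∈ S, ∀ y ∈ S, G.Adj w x → G.Adj w y → x ≠ v0 → y ≠ v0 → x = y) → Good S →
      Good (insert w S) := by
    intro S w hv0 hw hone ⟨f, hinj, hf0, hstar, hadj⟩
    have hwv0 : w ≠ v0 := fun h => hw (h ▸ hv0)
    -- candidate set
    have hcand : ∃ z, z ∉ S.image f ∧ Sh H x0 z ∧ ∀ u ∈ S, G.Adj w u → Sh H z (f u) := by
      have hScard : S.card < Fintype.card V := by
        have : S.card < (univ : Finset V).card := by
          apply card_lt_card
          rw [Finset.ssubset_univ_iff]
          intro h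
          exact hw (h ▸ mem_univ w)
        simpa using this
      have himg : (S.image f).card < Fintype.card V := lt_of_le_of_lt card_image_le hScard
      by_cases hex : ∃ u ∈ S, G.Adj w u ∧ u ≠ v0
      · obtain ⟨u, huS, hwu, huv0⟩ := hex
        have hs := hstar u huS huv0
        have hc := hcn _ _ hs
        have : ¬ (cn H x0 (f u) ⊆ S.image f) := by
          intro hsub
          have := card_le_card hsub
          omega
        rw [Finset.not_subset] at this
        obtain ⟨z, hz, hz2⟩ := this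
        have hz' := mem_cn.mp hz
        refine ⟨z, hz2, hz'.1, ?_⟩
        intro u' hu' hwu'
        by_cases huv : u' = v0
        · rw [huv, hf0]; exact hz'.1.symm
        · have := hone u huS u' hu' hwu hwu' huv0 huv
          rw [← this]; exact hz'.2.symm
      · push Not at hex
        have hc := hN x0 y0 hxy
        have : ¬ (N H x0 ⊆ S.image f) := by
          intro hsub
          have := card_le_card hsub
          omega
        rw [Finset.not_subset] at this
        obtain ⟨z, hz, hz2⟩ := this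
        have hz' := mem_N.mp hz
        refine ⟨z, hz2, hz', ?_⟩
        intro u' hu' hwu'
        have := hex u' hu' hwu'
        rw [this, hf0]; exact hz'.symm
    obtain ⟨z, hz1, hz2, hz3⟩ := hcand
    have hupd : ∀ u ∈ S, Function.update f w z u = f u := by
      intro u hu
      rw [Function.update_of_ne]
      rintro rfl
      exact hw hu
    refine ⟨Function.update f w z, ?_, ?_, ?_, ?_⟩
    · intro a ha b hb hab
      rw [coe_insert, Set.mem_insert_iff] at ha hb
      rcases ha with rfl | ha <;> rcases hb with rfl | hb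
      · rfl
      · exfalso
        rw [Function.update_self, hupd b hb] at hab
        exact hz1 (mem_image.mpr ⟨b, hb, hab.symm⟩)
      · exfalso
        rw [Function.update_self, hupd a ha] at hab
        exact hz1 (mem_image.mpr ⟨a, ha, hab⟩)
      · rw [hupd a ha, hupd b hb] at hab
        exact hinj ha hb hab
    · rw [hupd v0 hv0, hf0]
    · intro u hu huv0
      rw [mem_insert] at hu
      rcases hu with rfl | hu
      · rw [Function.update_self]; exact hz2
      · rw [hupd u hu]; exact hstar u hu huv0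
    · intro u hu v hv huv
      rw [mem_insert] at hu hv
      rcases hu with rfl | hu <;> rcases hv with rfl | hv
      · exact absurd huv (G.loopless.irrefl _)
      · rw [Function.update_self, hupd v hv]; exact hz3 v hv huv
      · rw [Function.update_self, hupd u hu]; exact (hz3 u hu huv.symm).symm
      · rw [hupd u hu, hupd v hv]; exact hadj u hu v hv huv
  have g1 : Good {v0} := by
    refine ⟨fun _ => x0, ?_, rfl, ?_, ?_⟩
    · intro a ha b hb _
      rw [coe_singleton, Set.mem_singleton_iff] at ha hb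
      rw [ha, hb]
    · intro u hu huv
      exact absurd (mem_singleton.mp hu) huv
    · intro u hu v hv huv
      rw [mem_singleton.mp hu, mem_singleton.mp hv] at huv
      exact absurd huv (G.loopless.irrefl _)
  have g2 : Good (insert p {v0}) := by
    by_cases hpv : p = v0
    · rw [hpv]; simpa using g1
    · apply step {v0} p (mem_singleton_self v0) (by simpa using hpv) _ g1
      intro x hx y hy _ _ hx0 _
      exact absurd (mem_singleton.mp hx) hx0
  have g3 : ∀ R : Finset V, Good (R ∪ insert p {v0}) := by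
    intro R
    induction R using Finset.induction_on with
    | empty => simpa using g2
    | insert w R hw ih =>
      rw [insert_union]
      by_cases hwR : w ∈ R ∪ insert p {v0}
      · rw [insert_eq_of_mem hwR]; exact ih
      · apply step _ w (by simp) hwR _ ih
        intro x _ y _ hwx hwy hx0 hy0
        apply hp w _ _ x y hwx hwy hx0 hy0
        · rintro rfl; exact hwR (by simp)
        · rintro rfl; exact hwR (by simp)
  obtain ⟨f, hinj, -, -, hadj⟩ := g3 univ
  refine ⟨f, ?_, fun u v => hadj u (by simp) v (by simp)⟩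
  intro a b hab
  exact hinj (by simp) (by simp) hab


lemma two_mem {α : Type*} {J : Finset α} (hJ : J.card ≤ 2) {a b c : α} (ha : a ∈ J) (hb : b ∈ J)
    (hc : c ∈ J) (hab : a ≠ b) : c = a ∨ c = b := by
  by_contra h
  push Not at h
  have h3 : ({a, b, c} : Finset α).card = 3 :=
    card_eq_three.mpr ⟨a, b, c, hab, h.1.symm, h.2.symm, rfl⟩
  have hs : ({a, b, c} : Finset α) ⊆ J := by
    intro z hz
    simp only [mem_insert, mem_singleton] at hz
    rcases hz with rfl | rfl | rfl <;> assumption
  have := card_le_card hs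
  omega

lemma find_p {V : Type} [Fintype V] (G : SimpleGraph V) (v0 : V) (J : Finset G.edgeSet)
    (hJ : J.card ≤ 2)
    (hcov : ∀ (u v : V) (h : G.Adj u v), u ≠ v0 → v ≠ v0 →
      (⟨s(u, v), (SimpleGraph.mem_edgeSet G).mpr h⟩ : G.edgeSet) ∈ J) :
    ∃ p, ∀ w, w ≠ v0 → w ≠ p → ∀ x y, G.Adj w x → G.Adj w y → x ≠ v0 → y ≠ v0 → x = y := by
  by_cases hex : ∃ w x y, w ≠ v0 ∧ x ≠ v0 ∧ y ≠ v0 ∧ G.Adj w x ∧ G.Adj w y ∧ x ≠ y
  · obtain ⟨w, x, y, hw, hx, hy, hwx, hwy, hxy⟩ := hex
    refine ⟨w, ?_⟩
    intro w' hw' hww x' y' hwx' hwy' hx' hy'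
    have h1 := hcov w x hwx hw hx
    have h2 := hcov w y hwy hw hy
    have h3 := hcov w' x' hwx' hw' hx'
    have h4 := hcov w' y' hwy' hw' hy'
    have hne : (⟨s(w, x), (SimpleGraph.mem_edgeSet G).mpr hwx⟩ : G.edgeSet) ≠
        ⟨s(w, y), (SimpleGraph.mem_edgeSet G).mpr hwy⟩ := by
      intro h
      have h' := congrArg Subtype.val h
      simp only [Sym2.eq_iff] at h'
      rcases h' with ⟨-, h'⟩ | ⟨h', h''⟩
      · exact hxy h'
      · exact hxy (h''.trans h')
    have h5 := two_mem hJ h1 h2 h3 hne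
    have h6 := two_mem hJ h1 h2 h4 hne
    simp only [Subtype.mk.injEq, Sym2.eq_iff] at h5 h6
    have h7 : x' = w := by
      rcases h5 with (⟨h, -⟩ | ⟨-, h⟩) | (⟨h, -⟩ | ⟨-, h⟩)
      · exact absurd h hww
      · exact h
      · exact absurd h hww
      · exact h
    have h8 : y' = w := by
      rcases h6 with (⟨h, -⟩ | ⟨-, h⟩) | (⟨h, -⟩ | ⟨-, h⟩)
      · exact absurd h hww
      · exact h
      · exact absurd h hww
      · exact h
    rw [h7, h8]
  · push Not at hex
    refine ⟨v0, ?_⟩
    intro w hw _ x y hwx hwy hx hy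
    exact hex w x y hw hx hy hwx hwy

/-- For every finite graph G whose expansion G⁺ has crosscut number exactly 3, there is C such that every 3-uniform hypergraph on n vertices with no copy of G⁺ has at most C·n² edges. -/
theorem sigma_three_bound :
  ∀ (V : Type) [Fintype V] (G : SimpleGraph V),
    ((∃ X : Finset (V ⊕ G.edgeSet), X.card = 3 ∧
        ∀ (u v : V) (h : G.Adj u v),
          ((Sum.inl u : V ⊕ G.edgeSet) ∈ X ∧ (Sum.inl v : V ⊕ G.edgeSet) ∉ X ∧
              (Sum.inr ⟨s(u, v), (SimpleGraph.mem_edgeSet G).mpr h⟩ : V ⊕ G.edgeSet) ∉ X) ∨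
          ((Sum.inl u : V ⊕ G.edgeSet) ∉ X ∧ (Sum.inl v : V ⊕ G.edgeSet) ∈ X ∧
              (Sum.inr ⟨s(u, v), (SimpleGraph.mem_edgeSet G).mpr h⟩ : V ⊕ G.edgeSet) ∉ X) ∨
          ((Sum.inl u : V ⊕ G.edgeSet) ∉ X ∧ (Sum.inl v : V ⊕ G.edgeSet) ∉ X ∧
              (Sum.inr ⟨s(u, v), (SimpleGraph.mem_edgeSet G).mpr h⟩ : V ⊕ G.edgeSet) ∈ X)) ∧
     (∀ X : Finset (V ⊕ G.edgeSet),
        (∀ (u v : V) (h : G.Adj u v),
          ((Sum.inl u : V ⊕ G.edgeSet) ∈ X ∧ (Sum.inl v : V ⊕ G.edgeSet) ∉ X ∧
              (Sum.inr ⟨s(u, v), (SimpleGraph.mem_edgeSet G).mpr h⟩ : V ⊕ G.edgeSet) ∉ X) ∨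
          ((Sum.inl u : V ⊕ G.edgeSet) ∉ X ∧ (Sum.inl v : V ⊕ G.edgeSet) ∈ X ∧
              (Sum.inr ⟨s(u, v), (SimpleGraph.mem_edgeSet G).mpr h⟩ : V ⊕ G.edgeSet) ∉ X) ∨
          ((Sum.inl u : V ⊕ G.edgeSet) ∉ X ∧ (Sum.inl v : V ⊕ G.edgeSet) ∉ X ∧
              (Sum.inr ⟨s(u, v), (SimpleGraph.mem_edgeSet G).mpr h⟩ : V ⊕ G.edgeSet) ∈ X)) →
        3 ≤ X.card)) →
    ∃ C : ℝ, ∀ (n : ℕ) (H : Finset (Finset (Fin n))),
      (∀ e ∈ H, e.card = 3) →
      (¬ ∃ f : V → Fin n, Function.Injective f ∧
          ∃ g : G.edgeSet → Fin n, Function.Injective g ∧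
            (∀ (e : G.edgeSet) (x : V), g e ≠ f x) ∧
            ∀ (u v : V) (h : G.Adj u v),
              ({f u, f v, g ⟨s(u, v), (SimpleGraph.mem_edgeSet G).mpr h⟩} : Finset (Fin n)) ∈ H) →
      (H.card : ℝ) ≤ C * (n : ℝ) ^ 2 := by
  intro V _ G ⟨⟨X, hX3, hX⟩, _⟩
  set t := Fintype.card V with ht
  set D := t + Fintype.card G.edgeSet with hDdef
  refine ⟨((D + (t + 3) + (t ^ 2 + 1) : ℕ) : ℝ), ?_⟩
  intro n H hH3 hno
  obtain ⟨H', hsub, hle, hcod⟩ := clean H D
  have hH'3 : ∀ e ∈ H', e.card = 3 := fun e he => hH3 e (hsub he)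
  have hnoemb : ∀ f : V → Fin n, Function.Injective f →
      (∀ u v, G.Adj u v → Sh H' (f u) (f v)) → False := by
    intro f hf hadj
    obtain ⟨g, hg1, hg2, hg3⟩ := embed G hH'3 hcod f hadj
    exact hno ⟨f, hf, g, hg1, hg2, fun u v h => hsub (hg3 u v h)⟩
  have hcn : ∀ x y, Sh H' x y → Fintype.card V ≤ (cn H' x y).card := by
    intro x y h
    refine le_trans ?_ ((hcod x y h).trans ((third hH'3 h.1).trans (card_le_card third_sub_cn)))
    rw [hDdef, ht]; exact Nat.le_add_right _ _
  suffices hH' : H'.card ≤ ((t + 3) + (t ^ 2 + 1)) * n ^ 2 by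
    have : H.card ≤ (D + (t + 3) + (t ^ 2 + 1)) * n ^ 2 := by
      calc H.card ≤ H'.card + D * n ^ 2 := hle
        _ ≤ ((t + 3) + (t ^ 2 + 1)) * n ^ 2 + D * n ^ 2 := Nat.add_le_add_right hH' _
        _ = _ := by ring
    exact_mod_cast this
  set I := X.toLeft with hI
  set J := X.toRight with hJ
  have hIJ : I.card + J.card = 3 := by rw [hI, hJ, card_toLeft_add_card_toRight, hX3]
  have hedge : ∀ (u v : V) (h : G.Adj u v),
      (u ∈ I ∧ v ∉ I ∧ (⟨s(u, v), (SimpleGraph.mem_edgeSet G).mpr h⟩ : G.edgeSet) ∉ J) ∨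
      (u ∉ I ∧ v ∈ I ∧ (⟨s(u, v), (SimpleGraph.mem_edgeSet G).mpr h⟩ : G.edgeSet) ∉ J) ∨
      (u ∉ I ∧ v ∉ I ∧ (⟨s(u, v), (SimpleGraph.mem_edgeSet G).mpr h⟩ : G.edgeSet) ∈ J) := by
    intro u v h
    have := hX u v h
    simpa only [hI, hJ, mem_toLeft, mem_toRight] using this
  have hTle := card_le_T hH'3
  by_cases hI1 : I.card ≤ 1
  · -- dominated case: the cleaned hypergraph is empty
    have hJ0 : ∃ v0 : V, ∃ J' : Finset G.edgeSet, J'.card ≤ 2 ∧
        ∀ (u v : V) (h : G.Adj u v), u ≠ v0 → v ≠ v0 →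
          (⟨s(u, v), (SimpleGraph.mem_edgeSet G).mpr h⟩ : G.edgeSet) ∈ J' := by
      rcases Nat.le_one_iff_eq_zero_or_eq_one.mp hI1 with h0 | h1
      · have hI0 : I = ∅ := card_eq_zero.mp h0
        have hJ3 : J.card = 3 := by omega
        have hJne : J.Nonempty := by rw [← card_pos]; omega
        obtain ⟨e1, he1⟩ := hJne
        obtain ⟨v0, hv0⟩ : ∃ v0, v0 ∈ (e1 : Sym2 V) := by
          obtain ⟨e, he⟩ := e1
          induction e using Sym2.ind with
          | _ a b => exact ⟨a, by simp⟩
        refine ⟨v0, J.erase e1, ?_, ?_⟩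
        · rw [card_erase_of_mem he1]; omega
        · intro u v h hu hv
          rw [mem_erase]
          constructor
          · rintro rfl
            simp only [Sym2.mem_iff] at hv0
            rcases hv0 with rfl | rfl
            · exact hu rfl
            · exact hv rfl
          · rcases hedge u v h with h' | h' | h'
            · rw [hI0] at h'; simp at h'
            · rw [hI0] at h'; simp at h'
            · exact h'.2.2
      · obtain ⟨v0, hv0⟩ := card_eq_one.mp h1
        refine ⟨v0, J, by omega, ?_⟩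
        intro u v h hu hv
        rcases hedge u v h with h' | h' | h'
        · rw [hv0] at h'; simp [hu] at h'
        · rw [hv0] at h'; simp [hv] at h'
        · exact h'.2.2
    obtain ⟨v0, J', hJ', hcov⟩ := hJ0
    obtain ⟨p, hp⟩ := find_p G v0 J' hJ' hcov
    have : H' = ∅ := by
      by_contra hne
      obtain ⟨e, he⟩ := Finset.nonempty_iff_ne_empty.mpr hne
      obtain ⟨x, y, z, hxy, -, -, rfl⟩ := card_eq_three.mp (hH'3 e he)
      obtain ⟨f, hf, hadj⟩ := case1 G H' hcn x y ⟨hxy, _, he, by simp, by simp⟩ v0 p hp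
      exact hnoemb f hf hadj
    rw [this]; simp
  · by_cases hI2 : I.card = 2
    · have hJ1 : J.card = 1 := by omega
      obtain ⟨a, b, hab, hIab⟩ := card_eq_two.mp hI2
      obtain ⟨e0, he0⟩ := card_eq_one.mp hJ1
      obtain ⟨e, he⟩ := e0
      induction e using Sym2.ind with
      | _ c d =>
        have hcd : G.Adj c d := (SimpleGraph.mem_edgeSet G).mp he
        have hcdI : c ∉ I ∧ d ∉ I := by
          rcases hedge c d hcd with h' | h' | h'
          · exfalso; apply h'.2.2; rw [he0]; exact mem_singleton_self _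
          · exfalso; apply h'.2.2; rw [he0]; exact mem_singleton_self _
          · exact ⟨h'.1, h'.2.1⟩
        have hca : c ≠ a := by rintro rfl; apply hcdI.1; rw [hIab]; simp
        have hcb : c ≠ b := by rintro rfl; apply hcdI.1; rw [hIab]; simp
        have hda : d ≠ a := by rintro rfl; apply hcdI.2; rw [hIab]; simp
        have hdb : d ≠ b := by rintro rfl; apply hcdI.2; rw [hIab]; simp
        have hT : (T H').card ≤ (t ^ 2 + 1) * n ^ 2 := by
          apply case2
          intro v w hvw x y hxy hx hy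
          by_contra hlt
          push Not at hlt
          have hx' := mem_cn.mp hx
          have hy' := mem_cn.mp hy
          obtain ⟨f, hf, hf1, hf2⟩ := extend ({a, b, c, d} : Finset V)
            (fun u => if u = a then x else if u = b then y else if u = c then v else w) (by
              intro i hi j hj hij
              simp only [coe_insert, coe_singleton, Set.mem_insert_iff, Set.mem_singleton_iff] at hi hj
              have e1 : x ≠ v := hx'.1.1.symm
              have e2 : x ≠ w := hx'.2.1.symm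
              have e3 : y ≠ v := hy'.1.1.symm
              have e4 : y ≠ w := hy'.2.1.symm
              have e5 : v ≠ w := hvw.1
              have e6 := hcd.ne
              rcases hi with rfl | rfl | rfl | rfl <;> rcases hj with rfl | rfl | rfl | rfl <;>
                simp_all [eq_comm]) (cn H' x y) (le_of_lt hlt)
          have fa : f a = x := by rw [hf1 a (by simp)]; simp
          have fb : f b = y := by rw [hf1 b (by simp)]; simp [hab.symm]
          have fc : f c = v := by rw [hf1 c (by simp)]; simp [hca, hcb]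
          have fd : f d = w := by rw [hf1 d (by simp)]; simp [hda, hdb, hcd.ne.symm]
          have key : ∀ u v', u ∈ I → v' ∉ I → Sh H' (f u) (f v') := by
            intro u v' hu hv'
            have hxc : Sh H' x (f v') ∧ Sh H' y (f v') := by
              by_cases hc : v' = c
              · rw [hc, fc]; exact ⟨hx'.1.symm, hy'.1.symm⟩
              · by_cases hd : v' = d
                · rw [hd, fd]; exact ⟨hx'.2.symm, hy'.2.symm⟩
                · have hv'2 : v' ∉ ({a, b, c, d} : Finset V) := by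
                    rw [hIab] at hv'
                    simp only [mem_insert, mem_singleton, not_or] at hv' ⊢
                    exact ⟨hv'.1, hv'.2, hc, hd⟩
                  exact mem_cn.mp (hf2 v' hv'2)
            rw [hIab] at hu
            simp only [mem_insert, mem_singleton] at hu
            rcases hu with rfl | rfl
            · rw [fa]; exact hxc.1
            · rw [fb]; exact hxc.2
          apply hnoemb f hf
          intro u v' huv
          rcases hedge u v' huv with h' | h' | h'
          · exact key u v' h'.1 h'.2.1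
          · exact (key v' u h'.2.1 h'.1).symm
          · have h3 := h'.2.2
            rw [he0, mem_singleton] at h3
            simp only [Subtype.mk.injEq, Sym2.eq_iff] at h3
            rcases h3 with ⟨rfl, rfl⟩ | ⟨rfl, rfl⟩
            · rw [fc, fd]; exact hvw
            · rw [fc, fd]; exact hvw.symm
        calc H'.card ≤ (T H').card := hTle
          _ ≤ (t ^ 2 + 1) * n ^ 2 := hT
          _ ≤ _ := Nat.mul_le_mul_right _ (Nat.le_add_left _ _)
    · have hI3 : I.card = 3 := by omega
      have hJ0 : J = ∅ := by rw [← card_eq_zero]; omega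
      obtain ⟨a, b, c, hab, hac, hbc, hIabc⟩ := card_eq_three.mp hI3
      have hT : (T H').card ≤ (t + 3) * n ^ 2 := by
        apply case3
        intro x y z hxy hxz hyz
        by_contra hlt
        push Not at hlt
        obtain ⟨f, hf, hf1, hf2⟩ := extend ({a, b, c} : Finset V)
          (fun u => if u = a then x else if u = b then y else z) (by
            intro i hi j hj hij
            simp only [coe_insert, coe_singleton, Set.mem_insert_iff, Set.mem_singleton_iff] at hi hj
            rcases hi with rfl | rfl | rfl <;> rcases hj with rfl | rfl | rfl <;>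
              simp_all [eq_comm]) _ (le_of_lt hlt)
        have fa : f a = x := by rw [hf1 a (by simp)]; simp
        have fb : f b = y := by rw [hf1 b (by simp)]; simp [hab.symm]
        have fc : f c = z := by rw [hf1 c (by simp)]; simp [hac.symm, hbc.symm]
        have key : ∀ u v', u ∈ I → v' ∉ I → Sh H' (f u) (f v') := by
          intro u v' hu hv'
          rw [hIabc] at hv' hu
          have h2 := hf2 v' hv'
          rw [mem_filter] at h2
          simp only [mem_insert, mem_singleton] at hu
          rcases hu with rfl | rfl | rfl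
          · rw [fa]; exact h2.2.1
          · rw [fb]; exact h2.2.2.1
          · rw [fc]; exact h2.2.2.2
        apply hnoemb f hf
        intro u v' huv
        rcases hedge u v' huv with h' | h' | h'
        · exact key u v' h'.1 h'.2.1
        · exact (key v' u h'.2.1 h'.1).symm
        · have h3 := h'.2.2
          rw [hJ0] at h3
          simp at h3
      calc H'.card ≤ (T H').card := hTle
        _ ≤ (t + 3) * n ^ 2 := hT
        _ ≤ _ := Nat.mul_le_mul_right _ (Nat.le_add_right _ _)

end Pool.Agent.H228R3.SigmaThree
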